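import Pool.Agent.W2helper2.TQ.Val

/-!
# The points of `y² = x³ - 1` at the places above three
-/

set_option autoImplicit false
set_option linter.unusedSectionVars false
set_option linter.unusedVariables false

namespace Pool.Agent.W2helper2.TQ

open WithZero

variable {E : Type*} [Field E] {ν : Valuation E ℤᵐ⁰} {k : ℕ}

lemma pow_sub_one {t : E} {c : ℤᵐ⁰} (ht : ν t = 1) (h : ν (t - 1) ≤ c) (j : ℕ) :
    ν (t ^ j - 1) ≤ c := by
  induction j with
  | zero => rw [pow_zero, sub_self, map_zero]; exact zero_le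
  | succ j ih =>
    rw [pow_succ]
    exact sub_one_mul ht ih h

/-- units -/
theorem PP.unit (hF : ∀ t : E, ν t = 1 → ν (t ^ k - 1) < 1) (h3 : exp (-3 : ℤ) ≤ ν 3) {t : E}
    (ht : ν t = 1) (h : ν (t ^ k - 1) ≤ ν 3) : PP ν k t := by
  refine ⟨ne_of_one ht, ⟨1, by rw [one_pow, mul_one, ht]⟩, fun b hb => ?_⟩
  rw [map_mul, ht, one_mul, map_pow] at hb
  have h1 : ν b = 1 := (pow_eq_one_iff_of_nonneg zero_le (by norm_num)).1 hb
  rw [mul_pow]
  refine sub_one_mul ?_ h ?_
  · rw [map_pow, map_pow, h1, one_pow, one_pow]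
  · rw [← pow_mul, mul_comm 3 k, pow_mul]
    exact cube_one h3 (hF _ h1)

/-- the Frobenius map modulo three -/
lemma frob {a b : E} (ha : ν a ≤ 1) (hb : ν b ≤ 1) (n : ℕ) :
    ν ((a + b) ^ 3 ^ n - a ^ 3 ^ n - b ^ 3 ^ n) ≤ ν 3 := by
  let R := ν.integer
  obtain ⟨r, hr⟩ := exists_add_pow_prime_pow_eq Nat.prime_three (⟨a, ha⟩ : R) ⟨b, hb⟩ n
  have h := congrArg (Subtype.val) hr
  have h' : (a + b) ^ 3 ^ n = a ^ 3 ^ n + b ^ 3 ^ n + 3 * a * b * (r : E) := by
    have e3 : (((3 : ℕ) : R) : E) = ((3 : ℕ) : E) := rfl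
    have h2 : (a + b) ^ 3 ^ n = a ^ 3 ^ n + b ^ 3 ^ n + (((3 : ℕ) : R) : E) * a * b * (r : E) := h
    rw [h2, e3, Nat.cast_ofNat]
  rw [h', show a ^ 3 ^ n + b ^ 3 ^ n + 3 * a * b * (r : E) - a ^ 3 ^ n - b ^ 3 ^ n =
    3 * (a * b * (r : E)) by ring, map_mul]
  refine mul_le_of_le_one_right' ?_
  rw [map_mul, map_mul]
  exact mul_le_one' (mul_le_one' ha hb) r.2

theorem pp_three {i X Y : E} {n : ℕ} (hk : k + 1 = 3 ^ n)
    (hF : ∀ t : E, ν t = 1 → ν (t ^ k - 1) < 1) (h3 : ν 3 = exp (-2 : ℤ)) (hi : i ^ 2 = -1)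
    (hY : Y ≠ i) (he : Y ^ 2 = X ^ 3 - 1) : PP ν k (Y - i) := by
  have h3' : exp (-3 : ℤ) ≤ ν 3 := by rw [h3, exp_le_exp]; norm_num
  have h3l : ν 3 < 1 := by rw [h3, ← exp_zero, exp_lt_exp]; norm_num
  have h30 : (3 : E) ≠ 0 := by
    intro h
    rw [h, map_zero] at h3
    exact exp_ne_zero h3.symm
  have h2 : ν 2 = 1 := by
    have e : (2 : E) = -1 + 3 := by norm_num
    rw [e, Valuation.map_add_eq_of_lt_left, Valuation.map_neg, map_one]
    rw [Valuation.map_neg, map_one]
    exact h3l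
  have hνi : ν i = 1 := by
    have h := congrArg ν hi
    rw [map_pow, Valuation.map_neg, map_one] at h
    exact (pow_eq_one_iff_of_nonneg zero_le (by norm_num)).1 h
  have hfac : (Y - i) * (Y + i) = X ^ 3 := by linear_combination he - hi
  -- `k` is even and `i ^ k = 1`
  obtain ⟨j, hj⟩ : ∃ j, k = 2 * j := by
    have : Odd (3 ^ n) := Odd.pow (by decide)
    rw [← hk] at this
    obtain ⟨j, hj⟩ := this
    exact ⟨j, by omega⟩
  have hik : i ^ k = 1 := by
    have h := hF i hνi
    rw [hj, pow_mul, hi] at h ⊢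
    rcases neg_one_pow_eq_or E j with h1 | h1
    · exact h1
    · exfalso
      rw [h1, show (-1 : E) - 1 = -2 by norm_num, Valuation.map_neg, h2] at h
      exact lt_irrefl _ h
  have hmk : (-1 : E) ^ k = 1 := by rw [hj, pow_mul]; norm_num
  have hN : ∀ t : E, t ^ 3 ^ n = t ^ k * t := fun t => by rw [← hk, pow_succ]
  by_cases h1 : ν Y ≤ 1
  · -- the integral case
    have hX1 : ν X ≤ 1 := by
      by_contra hX
      push Not at hX
      have h5 : ν (X ^ 3) ≤ 1 := by
        have e : X ^ 3 = Y ^ 2 + 1 := by linear_combination -he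
        rw [e]
        refine ν.map_add_le ?_ (by rw [map_one])
        rw [map_pow]
        exact pow_le_one₀ zero_le h1
      rw [map_pow] at h5
      exact absurd (one_lt_pow₀ hX (n := 3) (by norm_num)) (not_lt.2 h5)
    have hD1 : ∀ t : E, ν t ≤ 1 → ν (t ^ 3 ^ n - t) < 1 := by
      intro t ht
      rcases ht.lt_or_eq with h | h
      · rw [hN]
        have e : t ^ k * t - t = (t ^ k - 1) * t := by ring
        rw [e, map_mul]
        have h5 : ν (t ^ k - 1) ≤ 1 := ν.map_sub_le (by rw [map_pow]; exact pow_le_one₀ zero_le ht)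
          (by rw [map_one])
        exact lt_of_le_of_lt (mul_le_of_le_one_left' h5) h
      · rw [hN]
        have e : t ^ k * t - t = (t ^ k - 1) * t := by ring
        rw [e, map_mul, h, mul_one]
        exact hF t h
    have hexp2 : ∀ t s : E, ν t < 1 → ν s < 1 → ν (t * s) ≤ ν 3 := by
      intro t s ht hs
      rw [map_mul, h3]
      calc ν t * ν s ≤ exp (-1 : ℤ) * exp (-1 : ℤ) := mul_le_mul' (lt_le ht) (lt_le hs)
        _ = exp (-2 : ℤ) := by rw [← exp_add]; rfl
    -- the derivation at `X ^ 3`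
    have hX3 : ν ((X ^ 3) ^ 3 ^ n - X ^ 3) ≤ ν 3 := by
      set D := X ^ 3 ^ n - X with hD
      have hDl := hD1 X hX1
      have e : (X ^ 3) ^ 3 ^ n - X ^ 3 = D ^ 3 + 3 * (X * D * (X + D)) := by
        rw [← pow_mul, mul_comm 3 (3 ^ n), pow_mul, hD]
        ring
      rw [e]
      refine ν.map_add_le ((cube_le hDl).trans h3') ?_
      rw [map_mul]
      refine mul_le_of_le_one_right' ?_
      rw [map_mul, map_mul]
      exact mul_le_one' (mul_le_one' hX1 hDl.le) (ν.map_add_le hX1 hDl.le)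
    have hmN : (-1 : E) ^ 3 ^ n = -1 := by rw [hN, hmk, one_mul]
    have hY2 : ν ((Y ^ 2) ^ 3 ^ n - Y ^ 2) ≤ ν 3 := by
      have h5 := frob (ν := ν) (a := X ^ 3) (b := -1) (by rw [map_pow]; exact pow_le_one₀ zero_le hX1)
        (by rw [Valuation.map_neg, map_one]) n
      have e : (Y ^ 2) ^ 3 ^ n - Y ^ 2 = ((X ^ 3 + -1) ^ 3 ^ n - (X ^ 3) ^ 3 ^ n - (-1) ^ 3 ^ n) +
          ((X ^ 3) ^ 3 ^ n - X ^ 3) := by
        rw [he, hmN, ← sub_eq_add_neg]
        ring
      rw [e]
      exact ν.map_add_le h5 hX3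
    have hDY : ν (Y ^ 3 ^ n - Y) ≤ ν 3 := by
      rcases h1.lt_or_eq with h | h
      · -- `Y` is divisible by three
        have hY3 : ν Y ≤ ν 3 := by
          by_cases hY0 : Y = 0
          · rw [hY0, map_zero]; exact zero_le
          obtain ⟨m, hm⟩ := exp_of_ne (ν := ν) hY0
          have e : (X - 1) ^ 3 = Y ^ 2 - 3 * (X * (X - 1)) := by rw [he]; ring
          have hX11 : ν (X * (X - 1)) ≤ 1 := by
            rw [map_mul]
            exact mul_le_one' hX1 (ν.map_sub_le hX1 (by rw [map_one]))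
          have hlt : ν (X - 1) < 1 := by
            by_contra hc
            push Not at hc
            have h5 : ν ((X - 1) ^ 3) < 1 := by
              rw [e]
              refine ν.map_sub_lt ?_ ?_
              · rw [map_pow]
                exact pow_lt_one₀ zero_le h (by norm_num)
              · rw [map_mul]
                exact lt_of_le_of_lt (mul_le_of_le_one_right' hX11) h3l
            rw [map_pow] at h5
            exact absurd (one_le_pow₀ hc) (not_le.2 h5)
          have h6 : ν (Y ^ 2) ≤ exp (-3 : ℤ) := by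
            have e' : Y ^ 2 = (X - 1) ^ 3 + 3 * (X * (X - 1)) := by rw [e]; ring
            rw [e']
            refine ν.map_add_le (cube_le hlt) ?_
            rw [map_mul, map_mul, h3]
            calc exp (-2 : ℤ) * (ν X * ν (X - 1)) ≤ exp (-2 : ℤ) * (1 * exp (-1 : ℤ)) :=
                  mul_le_mul' le_rfl (mul_le_mul' hX1 (lt_le hlt))
              _ = exp (-3 : ℤ) := by rw [one_mul, ← exp_add]; rfl
          rw [map_pow, hm, ← exp_nsmul, exp_le_exp] at h6
          rw [hm, h3, exp_le_exp]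
          simp only [nsmul_eq_mul] at h6
          push_cast at h6
          omega
        refine ν.map_sub_le ?_ hY3
        rw [hN, map_mul]
        exact (mul_le_of_le_one_left' (by rw [map_pow]; exact pow_le_one₀ zero_le h1)).trans hY3
      · set D := Y ^ 3 ^ n - Y with hD
        have hDl := hD1 Y h1
        have e : (Y ^ 2) ^ 3 ^ n - Y ^ 2 = D * D + 2 * Y * D := by
          rw [← pow_mul, mul_comm 2 (3 ^ n), pow_mul, hD]
          ring
        have h5 : ν (2 * Y * D) ≤ ν 3 := by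
          have e' : 2 * Y * D = ((Y ^ 2) ^ 3 ^ n - Y ^ 2) - D * D := by rw [e]; ring
          rw [e']
          exact ν.map_sub_le hY2 (hexp2 _ _ hDl hDl)
        rw [map_mul, map_mul, h2, h, one_mul, one_mul] at h5
        exact h5
    -- the translates
    have htr : ∀ s : E, ν s = 1 → s ^ k = 1 → ν (Y - s) = 1 → ν ((Y - s) ^ k - 1) ≤ ν 3 := by
      intro s hs hsk hu
      have h5 := frob (ν := ν) (a := Y) (b := -s) h1 (by rw [Valuation.map_neg, hs]) n
      have hsN : (-s) ^ 3 ^ n = -s := by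
        rw [hN, neg_pow, hmk, hsk]
        ring
      have e : (Y - s) ^ 3 ^ n - (Y - s) = ((Y + -s) ^ 3 ^ n - Y ^ 3 ^ n - (-s) ^ 3 ^ n) +
          (Y ^ 3 ^ n - Y) := by
        rw [hsN, ← sub_eq_add_neg]
        ring
      have h6 : ν ((Y - s) ^ 3 ^ n - (Y - s)) ≤ ν 3 := by
        rw [e]
        exact ν.map_add_le h5 hDY
      have e2 : (Y - s) ^ 3 ^ n - (Y - s) = ((Y - s) ^ k - 1) * (Y - s) := by
        rw [hN]; ring
      rw [e2, map_mul, hu, mul_one] at h6
      exact h6
    have hpp : ∀ s : E, ν s = 1 → s ^ k = 1 → ν (Y - s) = 1 → PP ν k (Y - s) :=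
      fun s hs hsk hu => PP.unit hF h3' hu (htr s hs hsk hu)
    by_cases hm : ν (Y - i) = 1
    · exact hpp i hνi hik hm
    · have hlt : ν (Y - i) < 1 := lt_of_le_of_ne (ν.map_sub_le h1 hνi.le) hm
      have hp : ν (Y - -i) = 1 := by
        have e : Y - -i = 2 * i + (Y - i) := by ring
        have h4 : ν (2 * i) = 1 := by rw [map_mul, h2, hνi, one_mul]
        rw [e, Valuation.map_add_eq_of_lt_left, h4]
        rw [h4]
        exact hlt
      have hX : X ≠ 0 := by
        rintro rfl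
        have h5 := congrArg ν hfac
        rw [← sub_neg_eq_add, map_mul, hp, mul_one] at h5
        apply sub_ne_zero.2 hY
        rw [← ν.zero_iff, h5]
        simp
      have hP := hpp (-i) (by rw [Valuation.map_neg, hνi]) (by
        rw [neg_pow, hmk, hik, one_mul]) hp
      have e : Y - i = X ^ 3 * (Y - -i)⁻¹ := by
        rw [← hfac, ← sub_neg_eq_add, mul_assoc, mul_inv_cancel₀ hP.ne, mul_one]
      rw [e]
      exact (PP.cube hF h3' hX).mul hP.inv
  · push Not at h1
    have hY0 : Y ≠ 0 := by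
      rintro rfl
      rw [map_zero] at h1
      exact absurd h1 (not_lt.2 zero_le)
    obtain ⟨l, hl⟩ := exp_of_ne (ν := ν) hY0
    have hX1 : 1 < ν X := by
      by_contra hX
      push Not at hX
      have h5 : ν (Y ^ 2) ≤ 1 := by
        rw [he]
        refine ν.map_sub_le ?_ (by rw [map_one])
        rw [map_pow]
        exact pow_le_one₀ zero_le hX
      rw [map_pow] at h5
      exact absurd (one_lt_pow₀ h1 (n := 2) (by norm_num)) (not_lt.2 h5)
    have hX0 : X ≠ 0 := by
      rintro rfl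
      rw [map_zero] at hX1
      exact absurd hX1 (not_lt.2 zero_le)
    obtain ⟨m, hm⟩ := exp_of_ne (ν := ν) hX0
    have h6 : ν (X ^ 3 - 1) = ν (X ^ 3) := by
      apply Valuation.map_sub_eq_of_lt_left
      rw [map_one, map_pow]
      exact one_lt_pow₀ hX1 (by norm_num)
    have h7 := congrArg ν he
    rw [h6, map_pow, map_pow, hl, hm, ← exp_nsmul, ← exp_nsmul] at h7
    have h8 := exp_injective h7
    simp only [nsmul_eq_mul] at h8
    push_cast at h8
    rw [hl, ← exp_zero, exp_lt_exp] at h1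
    rw [hm, ← exp_zero, exp_lt_exp] at hX1
    -- small deviations
    have hsm : ∀ δ : E, ν δ ≤ exp (-3 : ℤ) → PP ν k (1 - δ) := by
      intro δ hδ
      have hδ1 : ν δ < 1 := lt_of_le_of_lt hδ (by rw [← exp_zero, exp_lt_exp]; norm_num)
      have hu : ν (1 - δ) = 1 := by
        rw [Valuation.map_sub_eq_of_lt_left, map_one]
        rw [map_one]
        exact hδ1
      refine PP.unit hF h3' hu ?_
      refine pow_sub_one hu ?_ k
      rw [show (1 : E) - δ - 1 = -δ by ring, Valuation.map_neg]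
      exact hδ.trans h3'
    have hY2 : PP ν k (Y ^ 2) := by
      have e : Y ^ 2 = X ^ 3 * (1 - (X⁻¹) ^ 3) := by
        rw [he, mul_sub, ← mul_pow, mul_inv_cancel₀ hX0, one_pow, mul_one]
      rw [e]
      refine (PP.cube hF h3' hX0).mul (hsm _ ?_)
      rw [map_pow, map_inv₀, hm, ← exp_neg, ← exp_nsmul, exp_le_exp]
      simp only [nsmul_eq_mul]
      push_cast
      omega
    have hPY : PP ν k Y := by
      have e : Y = (Y ^ 2)⁻¹ * Y ^ 3 := by
        field_simp
      rw [e]
      exact hY2.inv.mul (PP.cube hF h3' hY0)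
    have e : Y - i = Y * (1 - i * Y⁻¹) := by
      rw [mul_sub, mul_one, mul_left_comm, mul_inv_cancel₀ hY0, mul_one]
    rw [e]
    refine hPY.mul (hsm _ ?_)
    rw [map_mul, hνi, one_mul, map_inv₀, hl, ← exp_neg, exp_le_exp]
    omega

end Pool.Agent.W2helper2.TQ
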