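import Mathlib
import Pool.Agent.W2helper24.TQ.A10
import Pool.Agent.W2helper14.TQ.A2
import Pool.Agent.TH115.TC.Compl
import Pool.Agent.W2helper2.TQ.Val3

/-!
# The conditions at the completions
-/

set_option autoImplicit false
set_option linter.unusedSectionVars false

namespace Pool.Agent.W2helper2.TQ

open NumberField IsDedekindDomain WithZero Filter Topology
open Pool.Agent.W2helper24.TQ (Sel fermat exists_val)
open Pool.Agent.Y696 (und und_lies mem_under_of_lies)

section comp
variable {L : Type} [Field L] [NumberField L] (w : HeightOneSpectrum (𝓞 L))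

lemma vx (x : L) : Valued.v (algebraMap L (w.adicCompletion L) x) = w.valuation L x :=
  HeightOneSpectrum.valuedAdicCompletion_eq_valuation' w x

lemma near (y : w.adicCompletion L) : ∃ x : L,
    Valued.v (y - algebraMap L (w.adicCompletion L) x) < 1 := by
  have hU1 : {z : w.adicCompletion L | Valued.v z < 1} ∈ 𝓝 (0 : w.adicCompletion L) := by
    rw [Valued.mem_nhds_zero]
    exact ⟨1, fun z hz => by
      have := (Valuation.restrict_lt_iff_lt_embedding _).1 hz
      simpa using this⟩
  have ht : Tendsto (fun z : w.adicCompletion L => y - z) (𝓝 y) (𝓝 0) := by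
    have h5 : Tendsto (fun z : w.adicCompletion L => y - z) (𝓝 y) (𝓝 (y - y)) :=
      tendsto_const_nhds.sub tendsto_id
    rwa [sub_self] at h5
  obtain ⟨z, hz, x, rfl⟩ := mem_closure_iff_nhds.1
    (HeightOneSpectrum.denseRange_algebraMap L w y) _ (ht hU1)
  exact ⟨x, hz⟩

/-- Fermat's theorem in the completion -/
lemma fermat_compl {t : w.adicCompletion L} (ht : Valued.v t = 1) :
    Valued.v (t ^ (Nat.card (𝓞 L ⧸ w.asIdeal) - 1) - 1) < 1 := by
  obtain ⟨x, hx⟩ := near w t
  set x' := algebraMap L (w.adicCompletion L) x with hx'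
  have h1 : Valued.v x' = 1 := by
    have e : x' = t - (t - x') := by ring
    rw [e, Valuation.map_sub_eq_of_lt_left, ht]
    rw [ht]
    exact hx
  have h0 : x' ≠ 0 := ne_of_one (ν := Valued.v) h1
  have h2 := fermat w (t := x) (by rw [← vx, ← hx', h1])
  rw [← vx, map_sub, map_pow, map_one, ← hx'] at h2
  have h3 : Valued.v (t / x' - 1) < 1 := by
    have e : t / x' - 1 = (t - x') / x' := by field_simp
    rw [e, map_div₀, h1, div_one]
    exact hx
  have h4 : Valued.v (t / x') = 1 := by rw [map_div₀, ht, h1, div_one]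
  set k := Nat.card (𝓞 L ⧸ w.asIdeal) - 1
  have h5 := pow_sub_one (ν := Valued.v) h4 (lt_le (ν := Valued.v) h3) k
  have e : t ^ k = (t / x') ^ k * x' ^ k := by
    rw [div_pow]
    field_simp
  rw [e]
  refine lt_of_le_of_lt (sub_one_mul (ν := Valued.v) (c := exp (-1 : ℤ)) ?_ h5
    (lt_le (ν := Valued.v) h2)) ?_
  · rw [map_pow, h1, one_pow]
  · rw [← exp_zero, exp_lt_exp]
    norm_num

variable {w} in
/-- the condition at three from the completion -/
lemma loc_of_PP {z : L}
    (h : PP (Valued.v (R := w.adicCompletion L)) (Nat.card (𝓞 L ⧸ w.asIdeal) - 1)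
      (algebraMap L (w.adicCompletion L) z)) (a : L) (ha : w.valuation L (z * a ^ 3) = 1) :
    w.valuation L ((z * a ^ 3) ^ (Nat.card (𝓞 L ⧸ w.asIdeal) - 1) - 1) ≤ w.valuation L 3 := by
  have h1 := h.loc (algebraMap L _ a) (by rw [← map_pow, ← map_mul, vx, ha])
  have h3 : (3 : w.adicCompletion L) = algebraMap L _ 3 := (map_ofNat _ 3).symm
  rw [← map_pow, ← map_mul, ← map_pow, ← map_one (algebraMap L (w.adicCompletion L)), ← map_sub,
    vx, h3, vx] at h1
  exact h1

variable {w} in
/-- the condition on the valuation -/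
lemma div_of_val {z : L} {m : ℤ} (h : w.valuation L z = exp (3 * m)) :
    ∃ a : L, w.valuation L (z * a ^ 3) = 1 := by
  obtain ⟨a, ha⟩ := exists_val w (-m)
  refine ⟨a, ?_⟩
  rw [map_mul, map_pow, ha, h, ← exp_nsmul, ← exp_add, ← exp_zero]
  congr 1
  simp

end comp

section two
variable {Kv Lw : Type*} [Field Kv] [Field Lw] {μ : Valuation Kv ℤᵐ⁰} {ν : Valuation Lw ℤᵐ⁰}

/-- large values -/
lemma div_big {i X Y : Lw} (hi : i ^ 2 = -1) (he : Y ^ 2 = X ^ 3 - 1) (h1 : 1 < ν Y) :
    ∃ m : ℤ, ν (Y - i) = exp (3 * m) := by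
  have hνi : ν i = 1 := by
    have h := congrArg ν hi
    rw [map_pow, Valuation.map_neg, map_one] at h
    exact (pow_eq_one_iff_of_nonneg zero_le (by norm_num)).1 h
  have hY0 : Y ≠ 0 := by
    rintro rfl
    rw [map_zero] at h1
    exact absurd h1 (not_lt.2 zero_le)
  obtain ⟨l, hl⟩ := exp_of_ne (ν := ν) hY0
  have hX1 : 1 < ν X := by
    by_contra hX
    push Not at hX
    have h5 : ν (Y ^ 2) ≤ 1 := by
      rw [he]
      refine ν.map_sub_le ?_ (by rw [map_one])
      rw [map_pow]
      exact pow_le_one₀ zero_le hX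
    rw [map_pow] at h5
    exact absurd (one_lt_pow₀ h1 (n := 2) (by norm_num)) (not_lt.2 h5)
  have hX0 : X ≠ 0 := by
    rintro rfl
    rw [map_zero] at hX1
    exact absurd hX1 (not_lt.2 zero_le)
  obtain ⟨m, hm⟩ := exp_of_ne (ν := ν) hX0
  have h6 : ν (X ^ 3 - 1) = ν (X ^ 3) := by
    apply Valuation.map_sub_eq_of_lt_left
    rw [map_one, map_pow]
    exact one_lt_pow₀ hX1 (by norm_num)
  have h7 := congrArg ν he
  rw [h6, map_pow, map_pow, hl, hm, ← exp_nsmul, ← exp_nsmul] at h7
  have h8 := exp_injective h7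
  simp only [nsmul_eq_mul] at h8
  push_cast at h8
  refine ⟨l / 3, ?_⟩
  have h9 : ν (Y - i) = ν Y := by
    apply Valuation.map_sub_eq_of_lt_left
    rw [hνi]
    exact h1
  rw [h9, hl]
  congr 1
  omega

/-- at the places above two -/
theorem div_two (j : Kv →+* Lw) (hle : ∀ y, μ y ≤ 1 → ν (j y) ≤ 1)
    (hlt : ∀ y, μ y < 1 → ν (j y) < 1) (h2 : μ 2 = exp (-1 : ℤ)) {i : Lw} (hi : i ^ 2 = -1)
    {X Y : Kv} (he : Y ^ 2 = X ^ 3 - 1) : ∃ m : ℤ, ν (j Y - i) = exp (3 * m) := by
  have he' : (j Y) ^ 2 = (j X) ^ 3 - 1 := by rw [← map_pow, he, map_sub, map_pow, map_one]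
  have hνi : ν i = 1 := by
    have h := congrArg ν hi
    rw [map_pow, Valuation.map_neg, map_one] at h
    exact (pow_eq_one_iff_of_nonneg zero_le (by norm_num)).1 h
  by_cases h1 : μ Y ≤ 1
  · -- the value of `Y ^ 2 + 1`
    have hY1 : μ (Y ^ 2 + 1) = 1 := by
      rcases h1.lt_or_eq with h3 | h3
      · rw [add_comm, Valuation.map_add_eq_of_lt_left, map_one]
        rw [map_one, map_pow]
        exact pow_lt_one₀ zero_le h3 (by norm_num)
      · have h4 : μ (Y + 1) ≤ 1 := μ.map_add_le h1 (by rw [map_one])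
        have h2Y : μ (2 * Y) = exp (-1 : ℤ) := by rw [map_mul, h2, h3, mul_one]
        have e : Y ^ 2 + 1 = (Y + 1) ^ 2 - 2 * Y := by ring
        rcases h4.lt_or_eq with h5 | h5
        · exfalso
          have h6 : μ ((Y + 1) ^ 2) < μ (2 * Y) := by
            rw [h2Y, map_pow]
            calc μ (Y + 1) ^ 2 ≤ exp (-1 : ℤ) ^ 2 := pow_le_pow_left₀ zero_le (lt_le h5) 2
              _ < exp (-1 : ℤ) := by
                rw [← exp_nsmul, exp_lt_exp]
                norm_num
          have h7 : μ (Y ^ 2 + 1) = exp (-1 : ℤ) := by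
            rw [e, Valuation.map_sub_eq_of_lt_right _ h6, h2Y]
          have h8 : Y ^ 2 + 1 = X ^ 3 := by rw [he]; ring
          rw [h8, map_pow] at h7
          have hX0 : X ≠ 0 := by
            rintro rfl
            rw [map_zero, zero_pow (by norm_num)] at h7
            exact exp_ne_zero h7.symm
          obtain ⟨m, hm⟩ := exp_of_ne (ν := μ) hX0
          rw [hm, ← exp_nsmul] at h7
          have h9 := exp_injective h7
          simp only [nsmul_eq_mul] at h9
          push_cast at h9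
          omega
        · rw [e, Valuation.map_sub_eq_of_lt_left, map_pow, h5, one_pow]
          rw [h2Y, map_pow, h5, one_pow, ← exp_zero, exp_lt_exp]
          norm_num
    have h3 : ν ((j Y - i) * (j Y + i)) = 1 := by
      have e : (j Y - i) * (j Y + i) = j (Y ^ 2 + 1) := by
        rw [map_add, map_pow, map_one]
        linear_combination -hi
      rw [e]
      refine le_antisymm (hle _ hY1.le) ?_
      have h4 : μ (Y ^ 2 + 1)⁻¹ ≤ 1 := by rw [map_inv₀, hY1, inv_one]
      have h5 := hle _ h4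
      rw [map_inv₀, map_inv₀] at h5
      have h6 : ν (j (Y ^ 2 + 1)) ≠ 0 := by
        rw [Ne, ν.zero_iff, map_eq_zero]
        exact ne_of_one hY1
      exact (inv_le_one₀ (zero_lt_iff.2 h6)).1 h5
    have hj1 := hle _ h1
    have h4 : ν (j Y - i) ≤ 1 := ν.map_sub_le hj1 hνi.le
    have h5 : ν (j Y + i) ≤ 1 := ν.map_add_le hj1 hνi.le
    refine ⟨0, ?_⟩
    rw [mul_zero, exp_zero]
    rw [map_mul] at h3
    refine le_antisymm h4 ?_
    by_contra hcon
    push Not at hcon
    have h6 : ν (j Y - i) * ν (j Y + i) < 1 := mul_lt_one_of_nonneg_of_lt_one_left zero_le hcon h5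
    rw [h3] at h6
    exact lt_irrefl _ h6
  · push Not at h1
    refine div_big hi he' ?_
    have hY0 : Y ≠ 0 := by
      rintro rfl
      rw [map_zero] at h1
      exact absurd h1 (not_lt.2 zero_le)
    have h3 : μ Y⁻¹ < 1 := by
      rw [map_inv₀]
      exact inv_lt_one_of_one_lt₀ h1
    have h4 := hlt _ h3
    rw [map_inv₀, map_inv₀] at h4
    have h6 : ν (j Y) ≠ 0 := by
      rw [Ne, ν.zero_iff, map_eq_zero]
      exact hY0
    exact (inv_lt_one₀ (zero_lt_iff.2 h6)).1 h4

end two

end Pool.Agent.W2helper2.TQ
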