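import Mathlib

/-!
# The curve `y² = x³ - 1` over a field with a primitive cube root of unity
-/

set_option autoImplicit false
set_option linter.unusedSectionVars false
set_option linter.unusedVariables false

namespace Pool.Agent.W2helper2.TQ

open WeierstrassCurve

open scoped Classical

variable {F : Type*} [Field F]

/-- the curve `y² = x³ - 1` -/
structure IsE (V : WeierstrassCurve F) : Prop where
  h1 : V.a₁ = 0
  h2 : V.a₂ = 0
  h3 : V.a₃ = 0
  h4 : V.a₄ = 0
  h6 : V.a₆ = -1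

variable {V : WeierstrassCurve F} (hV : IsE V)

include hV

lemma IsE.eqn (x y : F) : V.toAffine.Equation x y ↔ y ^ 2 = x ^ 3 - 1 := by
  rw [Affine.equation_iff]
  show y ^ 2 + V.a₁ * x * y + V.a₃ * y = x ^ 3 + V.a₂ * x ^ 2 + V.a₄ * x + V.a₆ ↔ _
  rw [hV.h1, hV.h2, hV.h3, hV.h4, hV.h6]
  constructor
  · intro h; linear_combination h
  · intro h; linear_combination h

lemma IsE.negY (x y : F) : V.toAffine.negY x y = -y := by
  show -y - V.a₁ * x - V.a₃ = -y
  rw [hV.h1, hV.h3]
  ring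

variable [CharZero F]

lemma IsE.nons {x y : F} (he : y ^ 2 = x ^ 3 - 1) : V.toAffine.Nonsingular x y := by
  rw [Affine.nonsingular_iff]
  refine ⟨(hV.eqn x y).2 he, ?_⟩
  by_cases hy : y = 0
  · left
    show V.a₁ * y ≠ 3 * x ^ 2 + 2 * V.a₂ * x + V.a₄
    rw [hV.h1, hV.h2, hV.h4]
    intro h3
    have h4 : x ^ 2 = 0 := by
      have h5 : (3 : F) * x ^ 2 = 0 := by linear_combination -h3
      exact (mul_eq_zero.1 h5).resolve_left three_ne_zero
    have hx : x = 0 := pow_eq_zero_iff two_ne_zero |>.1 h4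
    subst hx
    have h5 : (1 : F) = 0 := by linear_combination he - y * hy
    exact one_ne_zero h5
  · right
    show y ≠ -y - V.a₁ * x - V.a₃
    rw [hV.h1, hV.h3]
    intro h5
    apply hy
    have h6 : (2 : F) * y = 0 := by linear_combination h5
    exact (mul_eq_zero.1 h6).resolve_left two_ne_zero

/-- the addition law -/
lemma IsE.add_ex {x1 y1 x2 y2 : F} (h1 : V.toAffine.Nonsingular x1 y1)
    (h2 : V.toAffine.Nonsingular x2 y2) (hxy : ¬ (x1 = x2 ∧ y1 = -y2)) :
    ∃ (ℓ X Y : F) (h : V.toAffine.Nonsingular X Y),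
      (Affine.Point.some x1 y1 h1 : V.toAffine.Point) + .some x2 y2 h2 = .some X Y h ∧
      X = ℓ ^ 2 - x1 - x2 ∧ Y = -(ℓ * (X - x1) + y1) ∧
      ((x1 ≠ x2 ∧ ℓ * (x1 - x2) = y1 - y2) ∨
        (x1 = x2 ∧ y1 = y2 ∧ y1 ≠ 0 ∧ ℓ * (2 * y1) = 3 * x1 ^ 2)) := by
  have hxy' : ¬ (x1 = x2 ∧ y1 = V.toAffine.negY x2 y2) := by rwa [hV.negY]
  refine ⟨V.toAffine.slope x1 x2 y1 y2, _, _, _, Affine.Point.add_some hxy', ?_, ?_, ?_⟩
  · show _ ^ 2 + V.a₁ * _ - V.a₂ - x1 - x2 = _
    rw [hV.h1, hV.h2]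
    ring
  · show -(_ * (_ ^ 2 + V.a₁ * _ - V.a₂ - x1 - x2 - x1) + y1) - V.a₁ * _ - V.a₃ =
      -(_ * ((_ ^ 2 + V.a₁ * _ - V.a₂ - x1 - x2) - x1) + y1)
    rw [hV.h1, hV.h3]
    ring
  · by_cases hx : x1 = x2
    · right
      subst hx
      have hy : y1 ≠ -y2 := fun h => hxy ⟨rfl, h⟩
      have e1 := (hV.eqn _ _).1 h1.1
      have e2 := (hV.eqn _ _).1 h2.1
      have e3 : (y1 - y2) * (y1 + y2) = 0 := by linear_combination e1 - e2
      have e4 : y1 + y2 ≠ 0 := fun h => hy (by linear_combination h)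
      have e5 : y1 = y2 := by
        have := (mul_eq_zero.1 e3).resolve_right e4
        linear_combination this
      subst e5
      have e6 : y1 ≠ 0 := by
        intro h
        apply e4
        rw [h, add_zero]
      refine ⟨rfl, rfl, e6, ?_⟩
      have hY : y1 ≠ V.toAffine.negY x1 y1 := by rwa [hV.negY]
      rw [Affine.slope_of_Y_ne rfl hY, hV.negY]
      show (3 * x1 ^ 2 + 2 * V.a₂ * x1 + V.a₄ - V.a₁ * y1) / (y1 - (-y1)) * (2 * y1) = _
      rw [hV.h1, hV.h2, hV.h4]
      have e7 : y1 - (-y1) ≠ 0 := by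
        intro h
        apply e4
        linear_combination h
      rw [div_mul_eq_mul_div, div_eq_iff e7]
      ring
    · left
      refine ⟨hx, ?_⟩
      rw [Affine.slope_of_X_ne hx, div_mul_cancel₀ _ (sub_ne_zero.2 hx)]

/-- opposite points -/
lemma IsE.add_opp {x1 y1 x2 y2 : F} (h1 : V.toAffine.Nonsingular x1 y1)
    (h2 : V.toAffine.Nonsingular x2 y2) (hxy : x1 = x2 ∧ y1 = -y2) :
    (Affine.Point.some x1 y1 h1 : V.toAffine.Point) + .some x2 y2 h2 = 0 :=
  Affine.Point.add_of_Y_eq hxy.1 (by rw [hV.negY]; exact hxy.2)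

lemma IsE.neg_nons {x y : F} (h : V.toAffine.Nonsingular x y) :
    V.toAffine.Nonsingular x (-y) := by
  apply hV.nons
  have := (hV.eqn _ _).1 h.1
  linear_combination this

lemma IsE.neg_eq {x y : F} (h : V.toAffine.Nonsingular x y)
    (h' : V.toAffine.Nonsingular x (-y)) :
    -(Affine.Point.some x y h : V.toAffine.Point) = .some x (-y) h' := by
  rw [Affine.Point.neg_some]
  congr 1
  exact hV.negY x y

variable {I : F} (hI : I ^ 2 + I + 1 = 0)

include hI

lemma I_cube : I ^ 3 = 1 := by linear_combination (I - 1) * hI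

lemma I_ne : I ≠ 0 := by
  rintro rfl
  have : (1 : F) = 0 := by linear_combination hI
  exact one_ne_zero this

lemma lam_ne : 1 + 2 * I ≠ 0 := by
  intro h
  have h3 : (3 : F) = 0 := by linear_combination 4 * hI - (1 + 2 * I) * h
  exact three_ne_zero h3

lemma one_sub_ne : 1 - I ≠ 0 := by
  intro h
  have h3 : (3 : F) = 0 := by linear_combination hI + (I + 2) * h
  exact three_ne_zero h3

lemma IsE.im_nons {x y : F} (h : V.toAffine.Nonsingular x y) :
    V.toAffine.Nonsingular (I * x) y := by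
  apply hV.nons
  have := (hV.eqn _ _).1 h.1
  have h3 := I_cube hV hI
  rw [mul_pow, h3, one_mul]
  exact this

/-- multiplication by the root of unity, as a map -/
def imf : V.toAffine.Point → V.toAffine.Point
  | 0 => 0
  | .some x y h => .some (I * x) y (hV.im_nons hI h)

lemma imf_some {x y : F} (h : V.toAffine.Nonsingular x y) :
    imf hV hI (.some x y h) = .some (I * x) y (hV.im_nons hI h) := rfl

lemma imf_add (P Q : V.toAffine.Point) :
    imf hV hI (P + Q) = imf hV hI P + imf hV hI Q := by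
  have hI0 := I_ne hV hI
  have hI3 := I_cube hV hI
  rcases P with _ | ⟨x1, y1, h1⟩
  · show imf hV hI (0 + Q) = 0 + _
    rw [zero_add, zero_add]
  rcases Q with _ | ⟨x2, y2, h2⟩
  · show imf hV hI (_ + 0) = _ + 0
    rw [add_zero, add_zero]
  by_cases hxy : x1 = x2 ∧ y1 = -y2
  · rw [hV.add_opp h1 h2 hxy, imf_some, imf_some, hV.add_opp]
    · rfl
    · rw [hxy.1, hxy.2]
      exact ⟨rfl, rfl⟩
  · obtain ⟨ℓ, X, Y, h, e, eX, eY, hs⟩ := hV.add_ex h1 h2 hxy
    have hxy' : ¬ (I * x1 = I * x2 ∧ y1 = -y2) := by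
      rintro ⟨h3, h4⟩
      exact hxy ⟨mul_left_cancel₀ hI0 h3, h4⟩
    obtain ⟨m, X', Y', h', e', eX', eY', hs'⟩ :=
      hV.add_ex (hV.im_nons hI h1) (hV.im_nons hI h2) hxy'
    have hm : m = I ^ 2 * ℓ := by
      rcases hs with ⟨g1, g2⟩ | ⟨g1, g2, g3, g4⟩
      · rcases hs' with ⟨g1', g2'⟩ | ⟨g1', -⟩
        · have h3 : (x1 - x2) * I ≠ 0 := mul_ne_zero (sub_ne_zero.2 g1) hI0
          apply mul_right_cancel₀ h3
          linear_combination g2' - g2 - ℓ * (x1 - x2) * hI3
        · exact absurd (mul_left_cancel₀ hI0 g1') g1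
      · rcases hs' with ⟨g1', -⟩ | ⟨g1', g2', g3', g4'⟩
        · exact absurd (by rw [g1]) g1'
        · apply mul_right_cancel₀ (mul_ne_zero (two_ne_zero (α := F)) g3)
          linear_combination g4' - I ^ 2 * g4
    rw [e, imf_some, imf_some, imf_some, e']
    have hX : I * X = X' := by
      rw [eX, eX', hm]
      linear_combination (-ℓ ^ 2 * I) * hI3
    have hY : Y = Y' := by
      rw [eY, eY', ← hX, hm]
      linear_combination (ℓ * (X - x1)) * hI3
    rw [Affine.Point.some.injEq]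
    exact ⟨hX, hY⟩

/-- multiplication by the root of unity -/
def im : V.toAffine.Point →+ V.toAffine.Point where
  toFun := imf hV hI
  map_zero' := rfl
  map_add' := imf_add hV hI

lemma im_some {x y : F} (h : V.toAffine.Nonsingular x y) :
    im hV hI (.some x y h) = .some (I * x) y (hV.im_nons hI h) := rfl

/-- the sum of the conjugates -/
lemma im_im (P : V.toAffine.Point) : im hV hI (im hV hI P) = -P - im hV hI P := by
  have hI0 := I_ne hV hI
  have hI3 := I_cube hV hI
  have h1I := one_sub_ne hV hI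
  rcases P with _ | ⟨x, y, h⟩
  · show im hV hI (im hV hI 0) = -0 - im hV hI 0
    rw [map_zero, map_zero, neg_zero, sub_zero]
  have he := (hV.eqn _ _).1 h.1
  have key : (Affine.Point.some x y h : V.toAffine.Point) + im hV hI (.some x y h) =
      -(im hV hI (im hV hI (.some x y h))) := by
    rw [im_some, im_some, hV.neg_eq _ (hV.neg_nons (hV.im_nons hI (hV.im_nons hI h)))]
    by_cases hx : x = 0
    · subst hx
      have hy : y ≠ 0 := by
        rintro rfl
        have h4 : (1 : F) = 0 := by linear_combination he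
        exact one_ne_zero h4
      have hxy : ¬ ((0 : F) = I * 0 ∧ y = -y) := by
        rintro ⟨-, h3⟩
        apply hy
        have h6 : (2 : F) * y = 0 := by linear_combination h3
        exact (mul_eq_zero.1 h6).resolve_left two_ne_zero
      obtain ⟨ℓ, X, Y, h', e, eX, eY, hs⟩ := hV.add_ex h (hV.im_nons hI h) hxy
      rw [e, Affine.Point.some.injEq]
      have hℓ : ℓ = 0 := by
        rcases hs with ⟨k1, -⟩ | ⟨-, -, k2, k3⟩
        · exact absurd (by ring) k1
        · have h5 : ℓ * (2 * y) = 0 := by rw [k3]; ring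
          exact (mul_eq_zero.1 h5).resolve_right (mul_ne_zero two_ne_zero k2)
      rw [eY, eX, hℓ]
      exact ⟨by ring, by ring⟩
    · have hxI : x ≠ I * x := by
        intro h3
        have h4 : (1 - I) * x = 0 := by linear_combination h3
        exact mul_ne_zero h1I hx h4
      have hxy : ¬ (x = I * x ∧ y = -y) := fun h => hxI h.1
      obtain ⟨ℓ, X, Y, h', e, eX, eY, hs⟩ := hV.add_ex h (hV.im_nons hI h) hxy
      rw [e, Affine.Point.some.injEq]
      have hℓ : ℓ = 0 := by
        rcases hs with ⟨-, k1⟩ | ⟨k1, -⟩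
        · have h5 : ℓ * (x - I * x) = 0 := by rw [k1]; ring
          exact (mul_eq_zero.1 h5).resolve_right (sub_ne_zero.2 hxI)
        · exact absurd k1 hxI
      rw [eY, eX, hℓ]
      exact ⟨by linear_combination (-x) * hI, by ring⟩
  have h2 := congrArg (fun Q => -Q) key
  simp only [neg_neg] at h2
  rw [← h2]
  abel

variable {i : F} (hi : i ^ 2 = -1)

include hi

omit hI in
lemma i_ne : i ≠ 0 := by
  rintro rfl
  have : (1 : F) = 0 := by linear_combination hi
  exact one_ne_zero this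

omit hI in
lemma T0_nons : V.toAffine.Nonsingular 0 i := hV.nons (by linear_combination hi)

omit hI in
/-- the point `(0, i)` -/
def T0 : V.toAffine.Point := .some 0 i (T0_nons hV hi)

omit hI in
lemma T0_ne : T0 hV hi ≠ 0 := Affine.Point.some_ne_zero _

omit hI in
lemma T0_neg : ∃ h : V.toAffine.Nonsingular 0 (-i), -T0 hV hi = .some 0 (-i) h :=
  ⟨hV.neg_nons (T0_nons hV hi), hV.neg_eq (T0_nons hV hi) _⟩

lemma im_T0 : im hV hI (T0 hV hi) = T0 hV hi := by
  unfold T0
  rw [im_some, Affine.Point.some.injEq]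
  exact ⟨by ring, rfl⟩

lemma T0_add3 : T0 hV hi + T0 hV hi + T0 hV hi = 0 := by
  have h := im_im hV hI (T0 hV hi)
  rw [im_T0, im_T0] at h
  have h2 : T0 hV hi + T0 hV hi + T0 hV hi = T0 hV hi + T0 hV hi - (-T0 hV hi - T0 hV hi) -
      T0 hV hi := by abel
  rw [h2, ← h]
  abel

/-- the kernel of `1 - ω` -/
lemma ker_im {P : V.toAffine.Point} (h : P - im hV hI P = 0) :
    P = 0 ∨ P = T0 hV hi ∨ P = -T0 hV hi := by
  rcases P with _ | ⟨x, y, hn⟩
  · left
    rfl
  · right
    have h1 := sub_eq_zero.1 h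
    rw [im_some, Affine.Point.some.injEq] at h1
    have h2 : (1 - I) * x = 0 := by linear_combination h1.1
    have hx : x = 0 := (mul_eq_zero.1 h2).resolve_left (one_sub_ne hV hI)
    subst hx
    have h3 := (hV.eqn _ _).1 hn.1
    have hy : (y - i) * (y + i) = 0 := by linear_combination h3 - hi
    rcases mul_eq_zero.1 hy with hy | hy
    · left
      have hy' : y = i := sub_eq_zero.1 hy
      subst hy'
      rfl
    · right
      obtain ⟨h', e⟩ := T0_neg hV hi
      rw [e, Affine.Point.some.injEq]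
      exact ⟨rfl, by linear_combination hy⟩

/-- the function `g` -/
noncomputable def gg (I i : F) : V.toAffine.Point → F
  | 0 => 0
  | .some x y _ => (y + i * (1 + 2 * I)) / ((1 + 2 * I) * x)

omit hV [CharZero F] hI hi in
lemma gg_some (I i : F) {x y : F} (h : V.toAffine.Nonsingular x y) :
    gg I i (Affine.Point.some x y h : V.toAffine.Point) =
      (y + i * (1 + 2 * I)) / ((1 + 2 * I) * x) := rfl

/-- the relation between `x` and `g` -/
lemma rel {x y g : F} (he : y ^ 2 = x ^ 3 - 1)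
    (hg : y = (1 + 2 * I) * (x * g - i)) : x ^ 3 + 3 * g ^ 2 * x ^ 2 - 6 * i * g * x - 4 = 0 := by
  have h1 : x ^ 3 = y ^ 2 + 1 := by linear_combination -he
  rw [h1, hg]
  linear_combination (4 * (x * g - i) ^ 2) * hI - 3 * hi

/-- `1 - ω` -/
lemma one_sub_im {x y : F} (hn : V.toAffine.Nonsingular x y) (hx : x ≠ 0) :
    ∃ (X : F) (h : V.toAffine.Nonsingular X (i + gg I i (.some x y hn : V.toAffine.Point) ^ 3)),
      (Affine.Point.some x y hn : V.toAffine.Point) - im hV hI (.some x y hn) =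
        .some X _ h := by
  have h0 : V.toAffine.Nonsingular (I * x) (-y) := hV.neg_nons (hV.im_nons hI hn)
  have hlam := lam_ne hV hI
  have h1I := one_sub_ne hV hI
  have hI3 := I_cube hV hI
  have hI0 := I_ne hV hI
  have he := (hV.eqn _ _).1 hn.1
  obtain ⟨g, hg⟩ : ∃ g, g = (y + i * (1 + 2 * I)) / ((1 + 2 * I) * x) := ⟨_, rfl⟩
  have hy : y = (1 + 2 * I) * (x * g - i) := by
    have h1 : (1 + 2 * I) * x * g = y + i * (1 + 2 * I) := by
      rw [hg, mul_div_cancel₀ _ (mul_ne_zero hlam hx)]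
    linear_combination -h1
  have hr := rel hV hI hi he hy
  rw [gg_some, ← hg]
  rw [sub_eq_add_neg, im_some, hV.neg_eq _ h0]
  have hxy : ¬ (x = I * x ∧ y = - -y) := by
    rintro ⟨h3, -⟩
    have h4 : (1 - I) * x = 0 := by linear_combination h3
    exact mul_ne_zero h1I hx h4
  obtain ⟨ℓ, X, Y, h, e, eX, eY, hs⟩ := hV.add_ex hn h0 hxy
  -- `ℓ x = 2 I (x g - i)`
  have hℓ : ℓ * x = 2 * I * (x * g - i) := by
    rcases hs with ⟨-, k1⟩ | ⟨k1, -⟩
    · apply mul_left_cancel₀ h1I
      rw [hy] at k1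
      linear_combination k1 + (2 * (x * g - i)) * hI
    · exact absurd ⟨k1, by ring⟩ hxy
  have hXx : X * x = I ^ 2 * g * (x * g - 2 * i) := by
    apply mul_right_cancel₀ hx
    have e1 : X * x * x = (ℓ * x) ^ 2 - (1 + I) * x ^ 3 := by
      rw [eX]; ring
    rw [e1, hℓ]
    linear_combination (-x ^ 3) * hI + I ^ 2 * hr + 4 * I ^ 2 * hi
  have hY : Y = i + g ^ 3 := by
    have hx2 : x ^ 2 ≠ 0 := pow_ne_zero 2 hx
    apply mul_right_cancel₀ hx2
    have e1 : Y * x ^ 2 = -(ℓ * x) * (X * x) + (ℓ * x) * x ^ 2 - y * x ^ 2 := by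
      rw [eY]; ring
    rw [e1, hℓ, hXx, hy]
    linear_combination (-2 * (x * g - i) * g * (x * g - 2 * i)) * hI3 - g * hr - 4 * g * hi
  subst hY
  exact ⟨X, h, e⟩

omit hI in
/-- translation by `(0, i)` -/
lemma add_T0 {x y : F} (hn : V.toAffine.Nonsingular x y) (hx : x ≠ 0) :
    ∃ h : V.toAffine.Nonsingular (-2 * i * (y - i) / x ^ 2) (i * (y - i) * (y - 3 * i) / x ^ 3),
      (Affine.Point.some x y hn : V.toAffine.Point) + T0 hV hi =
        .some (-2 * i * (y - i) / x ^ 2) (i * (y - i) * (y - 3 * i) / x ^ 3) h := by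
  have he := (hV.eqn _ _).1 hn.1
  have hxy : ¬ (x = 0 ∧ y = -i) := fun h => hx h.1
  obtain ⟨ℓ, X, Y, h, e, eX, eY, hs⟩ := hV.add_ex hn (T0_nons hV hi) hxy
  have hℓ : ℓ = (y - i) / x := by
    rw [eq_div_iff hx]
    rcases hs with ⟨-, g⟩ | ⟨g, -⟩
    · linear_combination g
    · exact absurd g hx
  have hX : X = -2 * i * (y - i) / x ^ 2 := by
    rw [eX, hℓ]
    field_simp
    linear_combination he - hi
  have hY : Y = i * (y - i) * (y - 3 * i) / x ^ 3 := by
    rw [eY, hX, hℓ]
    field_simp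
    linear_combination i * he - i * hi
  subst hX hY
  exact ⟨h, e⟩

lemma yi_ne {x y : F} (hn : V.toAffine.Nonsingular x y) (hx : x ≠ 0) : y - i ≠ 0 := by
  have he := (hV.eqn _ _).1 hn.1
  intro h
  apply hx
  have h1 : x ^ 3 = 0 := by linear_combination -he + hi + (y + i) * h
  exact pow_eq_zero_iff three_ne_zero |>.1 h1

/-- the action of the translation on `g` -/
lemma gg_add_T0 {x y : F} (hn : V.toAffine.Nonsingular x y) (hx : x ≠ 0) :
    gg I i ((.some x y hn : V.toAffine.Point) + T0 hV hi) =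
      I ^ 2 * gg I i (.some x y hn : V.toAffine.Point) := by
  obtain ⟨h, e⟩ := add_T0 hV hi hn hx
  have he := (hV.eqn _ _).1 hn.1
  have hlam := lam_ne hV hI
  have hyi := yi_ne hV hI hi hn hx
  have hi0 := i_ne hV hi
  rw [e, gg_some, gg_some]
  have hd : (1 + 2 * I) * (-2 * i * (y - i) / x ^ 2) ≠ 0 :=
    mul_ne_zero hlam (div_ne_zero (mul_ne_zero (mul_ne_zero (by norm_num) hi0) hyi)
      (pow_ne_zero 2 hx))
  rw [div_eq_iff hd]
  have hx3 : x ^ 3 = (y - i) * (y + i) := by linear_combination -he + hi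
  have e2 : I ^ 2 * ((y + i * (1 + 2 * I)) / ((1 + 2 * I) * x)) *
      ((1 + 2 * I) * (-2 * i * (y - i) / x ^ 2)) =
      (I ^ 2 * (y + i * (1 + 2 * I)) * (-2 * i * (y - i))) / x ^ 3 := by
    obtain ⟨m, hm⟩ : ∃ m : F, m = 1 + 2 * I := ⟨_, rfl⟩
    rw [← hm] at hlam ⊢
    field_simp
  rw [e2, div_add' _ _ _ (pow_ne_zero 3 hx)]
  congr 1
  rw [hx3]
  linear_combination (i * (y - i) * (2 * y + i * (4 * I - 2))) * hI

omit hi in
/-- `1 - ω` is surjective over algebraically closed fields -/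
theorem surj_im [IsAlgClosed F] (Q : V.toAffine.Point) : ∃ P, P - im hV hI P = Q := by
  have hI0 := I_ne hV hI
  have hI3 := I_cube hV hI
  have hlam := lam_ne hV hI
  obtain ⟨i, hi⟩ := IsAlgClosed.exists_pow_nat_eq (-1 : F) (n := 2) (by norm_num)
  rcases Q with _ | ⟨X, Y, hn⟩
  · exact ⟨0, by rw [map_zero, sub_zero]; rfl⟩
  have he := (hV.eqn _ _).1 hn.1
  obtain ⟨g, hg⟩ := IsAlgClosed.exists_pow_nat_eq (Y - i) (n := 3) (by norm_num)
  -- a root of the cubic
  obtain ⟨x, hx⟩ : ∃ x : F, x ^ 3 + 3 * g ^ 2 * x ^ 2 - 6 * i * g * x - 4 = 0 := by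
    let p : Polynomial F := Polynomial.X ^ 3 + Polynomial.C (3 * g ^ 2) * Polynomial.X ^ 2 +
      Polynomial.C (-6 * i * g) * Polynomial.X + Polynomial.C (-4)
    have hp : p.degree = 3 := by
      have e : p = Polynomial.C 1 * Polynomial.X ^ 3 + Polynomial.C (3 * g ^ 2) * Polynomial.X ^ 2 +
        Polynomial.C (-6 * i * g) * Polynomial.X + Polynomial.C (-4) := by
        simp only [p, Polynomial.C_1, one_mul]
      rw [e]
      exact Polynomial.degree_cubic one_ne_zero
    obtain ⟨x, hx⟩ := IsAlgClosed.exists_root p (by rw [hp]; norm_num)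
    refine ⟨x, ?_⟩
    have h1 : Polynomial.eval x p = 0 := hx
    simp only [p, Polynomial.eval_add, Polynomial.eval_mul, Polynomial.eval_pow,
      Polynomial.eval_X, Polynomial.eval_C] at h1
    linear_combination h1
  have hx0 : x ≠ 0 := by
    rintro rfl
    have h3 : (4 : F) = 0 := by linear_combination -hx
    norm_num at h3
  have hny : V.toAffine.Nonsingular x ((1 + 2 * I) * (x * g - i)) := by
    apply hV.nons
    linear_combination (4 * (x * g - i) ^ 2) * hI - hx - 3 * hi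
  obtain ⟨X', h', e'⟩ := one_sub_im hV hI hi hny hx0
  have hgg : gg I i (Affine.Point.some x _ hny : V.toAffine.Point) = g := by
    rw [gg_some, div_eq_iff (mul_ne_zero hlam hx0)]
    ring
  have hY : i + gg I i (Affine.Point.some x _ hny : V.toAffine.Point) ^ 3 = Y := by
    rw [hgg, hg]; ring
  have he' := (hV.eqn _ _).1 h'.1
  rw [hY] at he'
  have h3 : (X - X') * (X - I * X') * (X - I ^ 2 * X') = 0 := by
    linear_combination he' - he + (X * X' * (X' * I - X)) * hI - X' ^ 3 * hI3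
  set P0 : V.toAffine.Point := .some x _ hny with hP0
  rcases mul_eq_zero.1 h3 with h4 | h4
  · rcases mul_eq_zero.1 h4 with h5 | h5
    · refine ⟨P0, ?_⟩
      rw [e', Affine.Point.some.injEq]
      exact ⟨(sub_eq_zero.1 h5).symm, hY⟩
    · refine ⟨im hV hI P0, ?_⟩
      rw [← map_sub, e', im_some, Affine.Point.some.injEq]
      exact ⟨(sub_eq_zero.1 h5).symm, hY⟩
  · refine ⟨im hV hI (im hV hI P0), ?_⟩
    rw [← map_sub, ← map_sub, e', im_some, im_some, Affine.Point.some.injEq]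
    exact ⟨by rw [sub_eq_zero.1 h4]; ring, hY⟩

end Pool.Agent.W2helper2.TQ
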