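import Mathlib
import Pool.Agent.W2helper24.TQ.Stm
import Pool.Agent.W2helper2.TQ.El

/-!
# The endomorphism `1 - ω` on the Tate-Shafarevich group of `y² = x³ - 1`
-/

set_option autoImplicit false
set_option linter.unusedSectionVars false

namespace Pool.Agent.W2helper2.TQ

open WeierstrassCurve NumberField IsDedekindDomain
open scoped Classical Pointwise
open Pool.Agent.TH841.SH.D (Pt act Gal Coch IsCoc IsCob LocTriv cob cob_neg cob_add loc_add loc_neg
  coc_add coc_neg)
open Pool.Agent.W2helper24.TQ (Em)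
open Pool.Agent.TH841.NF.D (IsShaCoc shaCoc Sha)

section gen
variable {k : Type} [Field k] (W : WeierstrassCurve k)

lemma act_some {F L : Type} [Field F] [Field L] [Algebra k F]
    [Algebra k L] (φ : F →ₐ[k] L) {x y : F} (h : (W.baseChange F).toAffine.Nonsingular x y) :
    act W φ (.some x y h) =
      .some (φ x) (φ y) ((Affine.baseChange_nonsingular W φ.injective ..).mpr h) := rfl

variable {W} in
lemma pt_ext {L : Type} [Field L] [Algebra k L] {x y x' y' : L}
    {h : (W.baseChange L).toAffine.Nonsingular x y}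
    {h' : (W.baseChange L).toAffine.Nonsingular x' y'} :
    @Eq (Pt W L) (Affine.Point.some x y h : (W.baseChange L).toAffine.Point)
      (Affine.Point.some x' y' h' : (W.baseChange L).toAffine.Point) ↔ x = x' ∧ y = y' := by
  constructor
  · intro h
    have := (Affine.Point.some.injEq ..).to_iff.1 h
    exact this
  · rintro ⟨rfl, rfl⟩
    rfl

lemma act_inj {F L : Type} [Field F] [Field L] [Algebra k F]
    [Algebra k L] (φ : F →ₐ[k] L) : Function.Injective (act W φ) :=
  @Affine.Point.map_injective k k F L _ _ _ _ W (Classical.decEq F) (Classical.decEq L) _ _ _ _ _ _ _ φ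

lemma act_act {F L M : Type} [Field F] [Field L] [Field M] [Algebra k F]
    [Algebra k L] [Algebra k M] (φ : F →ₐ[k] L) (ψ : L →ₐ[k] M) (P : Pt W F) :
    act W ψ (act W φ P) = act W (ψ.comp φ) P := by
  rcases P with _ | ⟨x, y, h⟩
  · rfl
  · rfl

lemma act_one' (T : Pt W (AlgebraicClosure k)) :
    act W (1 : Gal k).toAlgHom T = T := by
  rcases T with _ | ⟨x, y, h⟩
  · rfl
  · rfl

lemma act_mul' (σ τ : Gal k) (T : Pt W (AlgebraicClosure k)) :
    act W (σ * τ).toAlgHom T = act W σ.toAlgHom (act W τ.toAlgHom T) := by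
  rcases T with _ | ⟨x, y, h⟩
  · rfl
  · rfl

/-- restriction of automorphisms -/
lemma exists_restr {K Kv : Type} [Field K] [Field Kv] [Algebra K Kv] [CharZero K]
    (ι : AlgebraicClosure K →ₐ[K] AlgebraicClosure Kv) (τ : Gal Kv) :
    ∃ σ : Gal K, ∀ x, τ (ι x) = ι (σ x) := by
  let _ : Algebra (AlgebraicClosure K) (AlgebraicClosure Kv) := ι.toRingHom.toAlgebra
  have : IsScalarTower K (AlgebraicClosure K) (AlgebraicClosure Kv) :=
    IsScalarTower.of_algebraMap_eq (fun x => (ι.commutes x).symm)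
  have : Normal K (AlgebraicClosure K) := IsAlgClosure.normal K _
  let τ' : AlgebraicClosure Kv ≃ₐ[K] AlgebraicClosure Kv := τ.restrictScalars K
  exact ⟨τ'.restrictNormal (AlgebraicClosure K), fun x =>
    (AlgEquiv.restrictNormal_commutes τ' (AlgebraicClosure K) x).symm⟩

variable [CharZero k]

lemma gal_ac (k : Type) [Field k] [CharZero k] : IsGalois k (AlgebraicClosure k) :=
  haveI : Normal k (AlgebraicClosure k) := IsAlgClosure.normal k _
  IsGalois.mk

lemma locConst_apply (x : AlgebraicClosure k) : IsLocallyConstant (fun σ : Gal k => σ x) := by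
  rw [IsLocallyConstant.iff_exists_open]
  intro σ
  have ho : IsOpen (MulAction.stabilizer (Gal k) x : Set (Gal k)) :=
    stabilizer_isOpen_of_isIntegral x
  refine ⟨σ • (MulAction.stabilizer (Gal k) x : Set (Gal k)), ho.smul σ, ?_, ?_⟩
  · exact ⟨1, (MulAction.stabilizer (Gal k) x).one_mem, mul_one σ⟩
  · rintro τ ⟨ρ, hρ, rfl⟩
    have h1 : ρ x = x := hρ
    show (σ * ρ) x = σ x
    rw [AlgEquiv.mul_apply, h1]

theorem act_locConst (P : Pt W (AlgebraicClosure k)) :
    IsLocallyConstant (fun σ : Gal k => act W σ.toAlgHom P) := by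
  rw [IsLocallyConstant.iff_exists_open]
  intro σ
  rcases P with _ | ⟨x, y, hxy⟩
  · exact ⟨Set.univ, isOpen_univ, trivial, fun τ _ => rfl⟩
  · obtain ⟨U, hU, hσU, hUx⟩ := (IsLocallyConstant.iff_exists_open _).1 (locConst_apply x) σ
    obtain ⟨V, hV, hσV, hVy⟩ := (IsLocallyConstant.iff_exists_open _).1 (locConst_apply y) σ
    refine ⟨U ∩ V, hU.inter hV, ⟨hσU, hσV⟩, fun τ hτ => ?_⟩
    exact pt_ext.2 ⟨hUx τ hτ.1, hVy τ hτ.2⟩

theorem cob_isCoc (Q : Pt W (AlgebraicClosure k)) :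
    IsCoc W (fun σ => act W σ.toAlgHom Q - Q : Coch W) := by
  refine ⟨(act_locConst W Q).comp (fun P => P - Q), fun σ τ => ?_⟩
  show act W (σ * τ).toAlgHom Q - Q =
    act W σ.toAlgHom Q - Q + act W σ.toAlgHom (act W τ.toAlgHom Q - Q)
  rw [map_sub, act_mul']
  abel

omit [CharZero k] in
theorem cob_loc (K : Type) [Field K] [Algebra k K] (Q : Pt W (AlgebraicClosure k)) :
    LocTriv W K (fun σ => act W σ.toAlgHom Q - Q : Coch W) := by
  intro ι
  refine ⟨act W ι Q, fun τ σ hc => ?_⟩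
  have h4 : act W ι (act W σ.toAlgHom Q) =
      act W (τ.toAlgHom.restrictScalars k) (act W ι Q) := by
    have h5 : ι.comp σ.toAlgHom = (τ.toAlgHom.restrictScalars k).comp ι :=
      AlgHom.ext fun x => (hc x).symm
    rw [act_act, act_act, h5]
  show act W ι (act W σ.toAlgHom Q - Q) = _
  rw [map_sub, h4]

end gen

section
variable {k : Type} [Field k] {L : Type} [Field L] [Algebra k L]

lemma isEb (k : Type) [Field k] (L : Type) [Field L] [Algebra k L] :
    IsE ((Em k).baseChange L) where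
  h1 := by
    show algebraMap k L 0 = 0
    rw [map_zero]
  h2 := by
    show algebraMap k L 0 = 0
    rw [map_zero]
  h3 := by
    show algebraMap k L 0 = 0
    rw [map_zero]
  h4 := by
    show algebraMap k L 0 = 0
    rw [map_zero]
  h6 := by
    show algebraMap k L (-1) = -1
    rw [map_neg, map_one]

lemma map_om {ω : k} (hω : ω ^ 2 + ω + 1 = 0) (L : Type) [Field L] [Algebra k L] :
    (algebraMap k L ω) ^ 2 + algebraMap k L ω + 1 = 0 := by
  rw [← map_pow, ← map_add, ← map_one (algebraMap k L), ← map_add, hω, map_zero]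

/-- the automorphism -/
noncomputable def Jm {ω : k} (hω : ω ^ 2 + ω + 1 = 0) (L : Type) [Field L] [Algebra k L]
    [CharZero L] : Pt (Em k) L →+ Pt (Em k) L :=
  im (isEb k L) (map_om hω L)

lemma Jm_some {ω : k} (hω : ω ^ 2 + ω + 1 = 0) [CharZero L] {x y : L}
    (h : ((Em k).baseChange L).toAffine.Nonsingular x y) :
    Jm hω L (.some x y h) = .some (algebraMap k L ω * x) y
      ((isEb k L).im_nons (map_om hω L) h) := rfl

lemma act_J {ω : k} (hω : ω ^ 2 + ω + 1 = 0) {L M : Type} [Field L] [Algebra k L] [CharZero L]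
    [Field M] [Algebra k M] [CharZero M] (φ : L →ₐ[k] M) (P : Pt (Em k) L) :
    act (Em k) φ (Jm hω L P) = Jm hω M (act (Em k) φ P) := by
  rcases P with _ | ⟨x, y, h⟩
  · rfl
  · refine pt_ext.2 ⟨?_, rfl⟩
    rw [map_mul, φ.commutes]

lemma Jm_Jm {ω : k} (hω : ω ^ 2 + ω + 1 = 0) [CharZero L] (P : Pt (Em k) L) :
    Jm hω L (Jm hω L P) = -P - Jm hω L P :=
  im_im (isEb k L) (map_om hω L) P

/-- the endomorphism `1 - ω` -/
noncomputable def ps {ω : k} (hω : ω ^ 2 + ω + 1 = 0) (L : Type) [Field L] [Algebra k L]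
    [CharZero L] : Pt (Em k) L →+ Pt (Em k) L := AddMonoidHom.id _ - Jm hω L

lemma ps_apply {ω : k} (hω : ω ^ 2 + ω + 1 = 0) [CharZero L] (P : Pt (Em k) L) :
    ps hω L P = P - Jm hω L P := rfl

lemma act_ps {ω : k} (hω : ω ^ 2 + ω + 1 = 0) {L M : Type} [Field L] [Algebra k L] [CharZero L]
    [Field M] [Algebra k M] [CharZero M] (φ : L →ₐ[k] M) (P : Pt (Em k) L) :
    act (Em k) φ (ps hω L P) = ps hω M (act (Em k) φ P) := by
  rw [ps_apply, ps_apply, map_sub, act_J]

lemma ps_ps {ω : k} (hω : ω ^ 2 + ω + 1 = 0) [CharZero L] (P : Pt (Em k) L) :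
    ps hω L (ps hω L P) = -Jm hω L (3 • P) := by
  rw [ps_apply, ps_apply, map_sub, Jm_Jm, map_nsmul]
  abel

lemma ps_surj {ω : k} (hω : ω ^ 2 + ω + 1 = 0) [CharZero L] [IsAlgClosed L] (Q : Pt (Em k) L) :
    ∃ P, ps hω L P = Q :=
  surj_im (isEb k L) (map_om hω L) Q

end

section sha
variable {F : Type} [Field F] [NumberField F] {ω : F} (hω : ω ^ 2 + ω + 1 = 0)

/-- `1 - ω` on the cochains -/
noncomputable def psc (f : Coch (Em F)) : Coch (Em F) :=
  fun σ => ps hω (AlgebraicClosure F) (f σ)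

lemma psc_apply (f : Coch (Em F)) (σ : Gal F) :
    psc hω f σ = ps hω (AlgebraicClosure F) (f σ) := rfl

lemma charZ (K : Type) [Field K] [Algebra F K] : CharZero K :=
  charZero_of_injective_algebraMap (algebraMap F K).injective

lemma loc_ps {K : Type} [Field K] [Algebra F K] {f : Coch (Em F)} (hf : LocTriv (Em F) K f) :
    LocTriv (Em F) K (psc hω f) := by
  haveI : CharZero K := charZ (F := F) K
  intro ι
  obtain ⟨P, hP⟩ := hf ι
  refine ⟨ps hω _ P, fun τ σ h => ?_⟩
  rw [psc_apply, act_ps, hP τ σ h, map_sub, act_ps]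

lemma sha_ps {f : Coch (Em F)} (hf : IsShaCoc (Em F) f) : IsShaCoc (Em F) (psc hω f) := by
  refine ⟨⟨hf.1.1.comp _, fun σ τ => ?_⟩, fun v => loc_ps hω (hf.2.1 v), fun v =>
    loc_ps hω (hf.2.2 v)⟩
  rw [psc_apply, hf.1.2, map_add, psc_apply, psc_apply, act_ps]

omit hω in
lemma sha_cob (W : WeierstrassCurve F) (Q : Pt W (AlgebraicClosure F)) :
    IsShaCoc W (fun σ => act W σ.toAlgHom Q - Q : Coch W) :=
  ⟨cob_isCoc W Q, fun _ => cob_loc W _ Q, fun _ => cob_loc W _ Q⟩

/-- **reduction to the kernel of `1 - ω`** -/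
theorem sha_red (h0 : ∀ f : Coch (Em F), IsShaCoc (Em F) f →
      (∀ σ, ps hω (AlgebraicClosure F) (f σ) = 0) → IsCob (Em F) f)
    (x : Sha (Em F)) (hx : 3 • x = 0) : x = 0 := by
  have h1 : ∀ f : Coch (Em F), IsShaCoc (Em F) f → IsCob (Em F) (psc hω f) → IsCob (Em F) f := by
    rintro f hf ⟨P, hP⟩
    obtain ⟨Q, rfl⟩ := ps_surj hω P
    set c : Coch (Em F) := fun σ => act (Em F) σ.toAlgHom Q - Q with hc
    have hcs : IsShaCoc (Em F) c := sha_cob _ Q
    have h2 : IsShaCoc (Em F) (f - c) := (shaCoc (Em F)).sub_mem hf hcs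
    have h3 : IsCob (Em F) (f - c) := by
      refine h0 _ h2 fun σ => ?_
      show ps hω _ (f σ - c σ) = 0
      rw [map_sub, ← psc_apply, hP σ, hc]
      show _ - ps hω _ (act (Em F) σ.toAlgHom Q - Q) = 0
      rw [map_sub, act_ps, sub_self]
    have h4 : IsCob (Em F) ((f - c) + c) := (cob (Em F)).add_mem h3 ⟨Q, fun σ => rfl⟩
    rwa [sub_add_cancel] at h4
  obtain ⟨⟨f, hf⟩, rfl⟩ := QuotientAddGroup.mk_surjective x
  have h5 : IsCob (Em F) (3 • f) := by
    have h6 : (QuotientAddGroup.mk (3 • (⟨f, hf⟩ : shaCoc (Em F))) : Sha (Em F)) = 0 := hx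
    rw [QuotientAddGroup.eq_zero_iff] at h6
    exact h6
  have h7 : IsCob (Em F) (psc hω (psc hω f)) := by
    obtain ⟨P, hP⟩ := h5
    refine ⟨-Jm hω _ P, fun σ => ?_⟩
    have h8 : 3 • f σ = act (Em F) σ.toAlgHom P - P := hP σ
    rw [psc_apply, psc_apply, ps_ps, h8, map_sub, map_neg, act_J]
    abel
  have h9 := h1 f hf (h1 _ (sha_ps hω hf) h7)
  exact (QuotientAddGroup.eq_zero_iff _).2 h9

end sha

end Pool.Agent.W2helper2.TQ
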