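import Mathlib
import Pool.Agent.TH841.SH.ShaDef
import Pool.Agent.Y715.T.Kum

/-!
# Kummer theory over an extension, inside the Galois group of the base field
-/

set_option autoImplicit false
set_option linter.unusedSectionVars false

namespace Pool.Agent.W2helper2.TQ

open Pool.Agent.TH841.SH.D (Gal)

theorem res_cont {F L Ω : Type*} [Field F] [Field L] [Field Ω] [Algebra F L] [Algebra F Ω]
    [Algebra L Ω] [IsScalarTower F L Ω] :
    Continuous (AlgEquiv.restrictScalarsHom F : (Ω ≃ₐ[L] Ω) →* (Ω ≃ₐ[F] Ω)) := by
  apply continuous_of_continuousAt_one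
  rw [ContinuousAt, map_one]
  intro s hs
  rw [krullTopology_mem_nhds_one_iff] at hs
  obtain ⟨E, hE, hEs⟩ := hs
  rw [Filter.mem_map, krullTopology_mem_nhds_one_iff]
  refine ⟨IntermediateField.adjoin L (Set.range fun j => ((Module.finBasis F E) j : Ω)),
    IntermediateField.finiteDimensional_adjoin ?_, fun τ hτ => hEs ?_⟩
  · rintro _ ⟨j, rfl⟩
    have h1 : IsIntegral F ((Module.finBasis F E) j) := Algebra.IsIntegral.isIntegral _
    have h2 : IsIntegral F (((Module.finBasis F E) j : E) : Ω) := h1.map E.val
    exact h2.tower_top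
  · rw [SetLike.mem_coe, IntermediateField.mem_fixingSubgroup_iff] at hτ ⊢
    have key : ∀ y : E, τ (y : Ω) = y := by
      intro y
      have h5 : (y : Ω) = ∑ j, ((Module.finBasis F E).repr y j) •
          (((Module.finBasis F E) j : E) : Ω) := by
        conv_lhs => rw [← (Module.finBasis F E).sum_repr y]
        rw [← IntermediateField.coe_val, map_sum]
        refine Finset.sum_congr rfl fun j _ => ?_
        rw [map_smul]
      rw [h5, map_sum]
      refine Finset.sum_congr rfl fun j _ => ?_
      have h6 : τ (((Module.finBasis F E) j : E) : Ω) = (((Module.finBasis F E) j : E) : Ω) :=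
        hτ _ (IntermediateField.subset_adjoin L _ ⟨j, rfl⟩)
      have h7 : τ (((Module.finBasis F E).repr y j) • (((Module.finBasis F E) j : E) : Ω)) =
          ((Module.finBasis F E).repr y j) • τ (((Module.finBasis F E) j : E) : Ω) :=
        map_smul (τ.restrictScalars F) _ _
      rw [h7, h6]
    intro x hx
    exact key ⟨x, hx⟩

variable {F L : Type} [Field F] [CharZero F] [Field L] [Algebra F L]
  (e : L →ₐ[F] AlgebraicClosure F)

/-- the elements fixed by the stabiliser -/
theorem fixL (x : AlgebraicClosure F)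
    (h : ∀ σ : Gal F, (∀ z, σ (e z) = e z) → σ x = x) : ∃ a : L, e a = x := by
  have hc : CharZero L := charZero_of_injective_algebraMap (algebraMap F L).injective
  let _ : Algebra L (AlgebraicClosure F) := e.toRingHom.toAlgebra
  have : IsScalarTower F L (AlgebraicClosure F) :=
    IsScalarTower.of_algebraMap_eq fun x => (e.commutes x).symm
  have halg : Algebra.IsAlgebraic L (AlgebraicClosure F) := Algebra.IsAlgebraic.tower_top (K := F) L
  have hcl : IsAlgClosure L (AlgebraicClosure F) := ⟨inferInstance, halg⟩
  have : Normal L (AlgebraicClosure F) := IsAlgClosure.normal L _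
  have : IsGalois L (AlgebraicClosure F) := IsGalois.mk
  refine (InfiniteGalois.mem_range_algebraMap_iff_fixed (k := L) (K := AlgebraicClosure F) x).2 ?_
  intro τ
  exact h (τ.restrictScalars F) fun z => τ.commutes z

/-- Kummer theory -/
theorem kum {ω : F} (hω : ω ^ 2 + ω + 1 = 0) (h : Gal F → ZMod 3) (hlc : IsLocallyConstant h)
    (hmul : ∀ σ τ : Gal F, (∀ z, σ (e z) = e z) → (∀ z, τ (e z) = e z) →
      h (σ * τ) = h σ + h τ) :
    ∃ (s : AlgebraicClosure F) (z : L), s ≠ 0 ∧ s ^ 3 = e z ∧
      ∀ σ : Gal F, (∀ z, σ (e z) = e z) →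
        σ s = (algebraMap F (AlgebraicClosure F) ω) ^ (h σ).val * s := by
  have hc : CharZero L := charZero_of_injective_algebraMap (algebraMap F L).injective
  have hc' : CharZero (AlgebraicClosure F) :=
    charZero_of_injective_algebraMap (algebraMap F (AlgebraicClosure F)).injective
  let _ : Algebra L (AlgebraicClosure F) := e.toRingHom.toAlgebra
  have : IsScalarTower F L (AlgebraicClosure F) :=
    IsScalarTower.of_algebraMap_eq fun x => (e.commutes x).symm
  have halg : Algebra.IsAlgebraic L (AlgebraicClosure F) := Algebra.IsAlgebraic.tower_top (K := F) L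
  have hcl : IsAlgClosure L (AlgebraicClosure F) := ⟨inferInstance, halg⟩
  have : Normal L (AlgebraicClosure F) := IsAlgClosure.normal L _
  have : IsGalois L (AlgebraicClosure F) := IsGalois.mk
  have hω' : (algebraMap F (AlgebraicClosure F) ω) ^ 2 + algebraMap F (AlgebraicClosure F) ω + 1 = 0 := by
    rw [← map_pow, ← map_add, ← map_one (algebraMap F (AlgebraicClosure F)), ← map_add, hω, map_zero]
  obtain ⟨s, z, hs, hz, hσ⟩ := Pool.Agent.Y715.T.Kum.exists_root (K := L)
    (Ω := AlgebraicClosure F) three_ne_zero hω'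
    (fun σ => (σ.restrictScalars F).commutes ω)
    (fun τ => h (AlgEquiv.restrictScalarsHom F τ))
    (fun σ τ => by
      rw [map_mul]
      exact hmul _ _ (fun z => σ.commutes z) (fun z => τ.commutes z))
    (hlc.comp_continuous res_cont)
  refine ⟨s, z, hs, hz, fun σ hfix => ?_⟩
  let τ : AlgebraicClosure F ≃ₐ[L] AlgebraicClosure F :=
    { σ with commutes' := fun z => hfix z }
  have hτ : AlgEquiv.restrictScalarsHom F τ = σ := AlgEquiv.ext fun x => rfl
  have h1 := hσ τ
  rw [hτ] at h1
  exact h1

end Pool.Agent.W2helper2.TQ
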