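import Mathlib
import Pool.Agent.W2helper2.TQ.Gal
import Pool.Agent.W2helper2.TQ.KumL

/-!
# Cocycles with values in the kernel of `1 - ω`
-/

set_option autoImplicit false
set_option linter.unusedSectionVars false

namespace Pool.Agent.W2helper2.TQ

open WeierstrassCurve NumberField IsDedekindDomain
open scoped Classical
open Pool.Agent.TH841.SH.D (Pt act Gal Coch IsCoc IsCob LocTriv cob)
open Pool.Agent.W2helper24.TQ (Em)
open Pool.Agent.TH841.NF.D (IsShaCoc shaCoc Sha)
open Pool.Agent.Y715.T.Kum (val_mul_pow)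

/-- the quadratic extension by a square root of minus one -/
structure Qd {F L : Type} [Field F] [Field L] [Algebra F L] (i : L) (σL : L ≃ₐ[F] L) : Prop where
  hi : i ^ 2 = -1
  si : σL i = -i
  gen : ∀ z : L, ∃ a b : F, z = algebraMap F L a + algebraMap F L b * i
  not : ∀ y : F, algebraMap F L y ≠ i

/-- an element fixed by all the automorphisms lies in the base field -/
lemma fixm {k : Type} [Field k] [CharZero k] (x : AlgebraicClosure k) (h : ∀ σ : Gal k, σ x = x) :
    ∃ y : k, algebraMap k _ y = x :=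
  haveI := gal_ac k
  (InfiniteGalois.mem_range_algebraMap_iff_fixed (k := k) (K := AlgebraicClosure k) x).2 h

/-- elements fixed by the stabiliser of a square root of minus one -/
lemma stab2 {k : Type} [Field k] [CharZero k] {I : AlgebraicClosure k} (hI : I ^ 2 = -1)
    (z : AlgebraicClosure k) (h : ∀ σ : Gal k, σ I = I → σ z = z) :
    ∃ A B : k, z = algebraMap k _ A + algebraMap k _ B * I := by
  have hI0 : I ≠ 0 := by
    rintro rfl
    have : (1 : AlgebraicClosure k) = 0 := by linear_combination hI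
    exact one_ne_zero this
  have hcas : ∀ σ : Gal k, σ I = I ∨ σ I = -I := by
    intro σ
    have h1 : (σ I) ^ 2 = -1 := by rw [← map_pow, hI, map_neg, map_one]
    have h2 : (σ I - I) * (σ I + I) = 0 := by linear_combination h1 - hI
    rcases mul_eq_zero.1 h2 with h3 | h3
    · exact Or.inl (sub_eq_zero.1 h3)
    · exact Or.inr (eq_neg_of_add_eq_zero_left h3)
  by_cases hall : ∀ σ : Gal k, σ I = I
  · obtain ⟨A, hA⟩ := fixm z fun σ => h σ (hall σ)
    exact ⟨A, 0, by rw [hA, map_zero, zero_mul, add_zero]⟩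
  push Not at hall
  obtain ⟨c, hc⟩ := hall
  have hc' : c I = -I := (hcas c).resolve_left hc
  have hcc : ∀ σ : Gal k, σ I = -I → σ z = c z ∧ σ (c z) = z := by
    intro σ hσ
    have hci : c⁻¹ I = -I := by
      have h1 : c⁻¹ (c I) = I := by
        rw [← AlgEquiv.mul_apply, inv_mul_cancel, AlgEquiv.one_apply]
      rw [hc', map_neg] at h1
      exact neg_eq_iff_eq_neg.1 h1
    constructor
    · have h1 : (c⁻¹ * σ) z = z := h _ (by rw [AlgEquiv.mul_apply, hσ, map_neg, hci, neg_neg])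
      have h2 := congrArg c h1
      rwa [← AlgEquiv.mul_apply, mul_inv_cancel_left] at h2
    · have h1 : (σ * c) z = z := h _ (by rw [AlgEquiv.mul_apply, hc', map_neg, hσ, neg_neg])
      exact h1
  have hcf : ∀ σ : Gal k, σ I = I → σ (c z) = c z := by
    intro σ hσ
    have hci : c⁻¹ I = -I := by
      have h1 : c⁻¹ (c I) = I := by
        rw [← AlgEquiv.mul_apply, inv_mul_cancel, AlgEquiv.one_apply]
      rw [hc', map_neg] at h1
      exact neg_eq_iff_eq_neg.1 h1
    have h1 : (c⁻¹ * (σ * c)) z = z := h _ (by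
      rw [AlgEquiv.mul_apply, AlgEquiv.mul_apply, hc', map_neg, hσ, map_neg, hci, neg_neg])
    have h2 := congrArg c h1
    rwa [← AlgEquiv.mul_apply, mul_inv_cancel_left, AlgEquiv.mul_apply] at h2
  obtain ⟨A, hA⟩ := fixm ((z + c z) / 2) (by
    intro σ
    rcases hcas σ with h1 | h1
    · rw [map_div₀, map_add, h σ h1, hcf σ h1, map_ofNat]
    · rw [map_div₀, map_add, (hcc σ h1).1, (hcc σ h1).2, map_ofNat, add_comm])
  obtain ⟨B, hB⟩ := fixm ((z - c z) / (2 * I)) (by
    intro σ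
    rcases hcas σ with h1 | h1
    · rw [map_div₀, map_sub, h σ h1, hcf σ h1, map_mul, h1, map_ofNat]
    · rw [map_div₀, map_sub, (hcc σ h1).1, (hcc σ h1).2, map_mul, h1, map_ofNat]
      field_simp
      ring)
  refine ⟨A, B, ?_⟩
  rw [hA, hB]
  field_simp
  ring

section tt
variable {k : Type} [Field k] {M : Type} [Field M] [Algebra k M] [CharZero M]
  {I : M} (hI : I ^ 2 = -1)

/-- the point `(0, i)` -/
noncomputable def Tp (k : Type) [Field k] {M : Type} [Field M] [Algebra k M] [CharZero M]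
    {I : M} (hI : I ^ 2 = -1) : Pt (Em k) M := T0 (isEb k M) hI

/-- the multiples of the point `(0, i)` -/
noncomputable def tt (k : Type) [Field k] {M : Type} [Field M] [Algebra k M] [CharZero M]
    {I : M} (hI : I ^ 2 = -1) (a : ZMod 3) : Pt (Em k) M := a.val • Tp k hI

lemma Tp_ne : Tp k hI ≠ 0 := T0_ne (isEb k M) hI

lemma Tp_three {ω : k} (hω : ω ^ 2 + ω + 1 = 0) : (3 : ℕ) • Tp k hI = 0 := by
  have h := T0_add3 (isEb k M) (map_om hω M) hI
  have e : (3 : ℕ) • Tp k hI = Tp k hI + Tp k hI + Tp k hI := by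
    rw [succ_nsmul, two_nsmul]
  rw [e]
  exact h

lemma tt_add {ω : k} (hω : ω ^ 2 + ω + 1 = 0) (a b : ZMod 3) :
    tt k hI (a + b) = tt k hI a + tt k hI b := by
  unfold tt
  rw [← add_nsmul, ZMod.val_add]
  conv_rhs => rw [← Nat.div_add_mod (a.val + b.val) 3]
  rw [add_nsmul, mul_nsmul, Tp_three hI hω, smul_zero, zero_add]

lemma tt_zero : tt k hI 0 = 0 := by
  unfold tt
  rw [ZMod.val_zero, zero_nsmul]

lemma tt_neg {ω : k} (hω : ω ^ 2 + ω + 1 = 0) (a : ZMod 3) : tt k hI (-a) = -tt k hI a := by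
  have h := tt_add hI hω (-a) a
  rw [neg_add_cancel, tt_zero] at h
  exact eq_neg_of_add_eq_zero_left h.symm

lemma tt_one : tt k hI 1 = Tp k hI := by
  unfold tt
  have : (1 : ZMod 3).val = 1 := rfl
  rw [this, one_nsmul]

lemma tt_inj {ω : k} (hω : ω ^ 2 + ω + 1 = 0) : Function.Injective (tt k hI) := by
  intro a b h
  have h1 : tt k hI (a - b) = 0 := by
    rw [sub_eq_add_neg, tt_add hI hω, tt_neg hI hω, h, add_neg_cancel]
  by_contra hab
  have h2 : a - b ≠ 0 := sub_ne_zero.2 hab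
  have h3 : ∀ x : ZMod 3, x ≠ 0 → x = 1 ∨ x = -1 := by decide
  rcases h3 _ h2 with h4 | h4
  · rw [h4, tt_one] at h1
    exact Tp_ne hI h1
  · rw [h4, tt_neg hI hω, tt_one, neg_eq_zero] at h1
    exact Tp_ne hI h1

lemma ps_tt {ω : k} (hω : ω ^ 2 + ω + 1 = 0) (a : ZMod 3) : ps hω M (tt k hI a) = 0 := by
  have h : ps hω M (Tp k hI) = 0 := by
    rw [ps_apply, sub_eq_zero]
    exact (im_T0 (isEb k M) (map_om hω M) hI).symm
  unfold tt
  rw [map_nsmul, h, smul_zero]

lemma ker_tt {ω : k} (hω : ω ^ 2 + ω + 1 = 0) {P : Pt (Em k) M} (h : ps hω M P = 0) :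
    ∃ a, P = tt k hI a := by
  rcases ker_im (isEb k M) (map_om hω M) hI (P := P) h with h1 | h1 | h1
  · exact ⟨0, by rw [tt_zero]; exact h1⟩
  · exact ⟨1, by rw [tt_one]; exact h1⟩
  · exact ⟨-1, by rw [tt_neg hI hω, tt_one]; exact h1⟩

/-- the action on the points -/
lemma act_tt {N : Type} [Field N] [Algebra k N] [CharZero N] {J : N} (hJ : J ^ 2 = -1)
    (φ : M →ₐ[k] N) (h : φ I = J) (a : ZMod 3) : act (Em k) φ (tt k hI a) = tt k hJ a := by
  have h1 : act (Em k) φ (Tp k hI) = Tp k hJ := pt_ext.2 ⟨map_zero φ, h⟩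
  unfold tt
  rw [map_nsmul, h1]

lemma act_tt_neg {N : Type} [Field N] [Algebra k N] [CharZero N] {J : N} (hJ : J ^ 2 = -1)
    {ω : k} (hω : ω ^ 2 + ω + 1 = 0)
    (φ : M →ₐ[k] N) (h : φ I = -J) (a : ZMod 3) : act (Em k) φ (tt k hI a) = tt k hJ (-a) := by
  have h1 : act (Em k) φ (Tp k hI) = -Tp k hJ := by
    obtain ⟨h', e⟩ := T0_neg (isEb k N) hJ
    refine Eq.trans ?_ e.symm
    exact pt_ext.2 ⟨map_zero φ, h⟩
  rw [tt_neg hJ hω]
  unfold tt
  rw [map_nsmul, h1, smul_neg]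

end tt

section glob
variable {F L : Type} [Field F] [CharZero F] [Field L] [Algebra F L] {i : L} {σL : L ≃ₐ[F] L}
  (D : Qd i σL) (e : L →ₐ[F] AlgebraicClosure F)

include D

lemma Qd.eI : (e i) ^ 2 = -1 := by rw [← map_pow, D.hi, map_neg, map_one]

lemma Qd.cas (g : Gal F) : g (e i) = e i ∨ g (e i) = -(e i) := by
  have hI := D.eI e
  have h1 : (g (e i)) ^ 2 = -1 := by rw [← map_pow, hI, map_neg, map_one]
  have h2 : (g (e i) - e i) * (g (e i) + e i) = 0 := by linear_combination h1 - hI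
  rcases mul_eq_zero.1 h2 with h3 | h3
  · exact Or.inl (sub_eq_zero.1 h3)
  · exact Or.inr (eq_neg_of_add_eq_zero_left h3)

lemma Qd.fix {g : Gal F} (h : g (e i) = e i) (z : L) : g (e z) = e z := by
  obtain ⟨a, b, rfl⟩ := D.gen z
  rw [map_add, map_mul, map_add, map_mul, h, e.commutes, e.commutes, g.commutes, g.commutes]

lemma Qd.conj {g : Gal F} (h : g (e i) = -(e i)) (z : L) : g (e z) = e (σL z) := by
  obtain ⟨a, b, rfl⟩ := D.gen z
  rw [map_add, map_mul, map_add, map_mul, h, e.commutes, e.commutes, g.commutes, g.commutes,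
    map_add σL, map_mul σL, σL.commutes, σL.commutes, D.si, map_add, map_mul, map_neg, e.commutes,
    e.commutes]

lemma Qd.exc : ∃ c : Gal F, c (e i) = -(e i) := by
  by_contra hcon
  push Not at hcon
  obtain ⟨y, hy⟩ := fixm (e i) fun g => (D.cas e g).resolve_right (hcon g)
  refine D.not y (e.injective ?_)
  show e (algebraMap F L y) = e i
  rw [e.commutes, hy]

lemma Qd.inv {c : Gal F} (hc : c (e i) = -(e i)) : c⁻¹ (e i) = -(e i) := by
  have h1 : c⁻¹ (c (e i)) = e i := by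
    rw [← AlgEquiv.mul_apply, inv_mul_cancel, AlgEquiv.one_apply]
  rw [hc, map_neg] at h1
  exact neg_eq_iff_eq_neg.1 h1

/-- **the Kummer element of a cocycle** -/
theorem Qd.glob {ω : F} (hω : ω ^ 2 + ω + 1 = 0) {f : Coch (Em F)} (hf : IsCoc (Em F) f)
    (h0 : ∀ σ, ps hω (AlgebraicClosure F) (f σ) = 0) :
    ∃ (h : Gal F → ZMod 3) (s : AlgebraicClosure F) (z : L), s ≠ 0 ∧ s ^ 3 = e z ∧
      (∀ σ, f σ = tt F (D.eI e) (h σ)) ∧
      (∀ σ : Gal F, σ (e i) = e i →
        σ s = (algebraMap F (AlgebraicClosure F) ω) ^ (h σ).val * s) ∧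
      (∃ a : L, z * σL z = a ^ 3) ∧ ((∃ a : L, z = a ^ 3) → IsCob (Em F) f) := by
  have hI := D.eI e
  set h : Gal F → ZMod 3 := fun σ => Function.invFun (tt F hI) (f σ) with hh
  have hft : ∀ σ, f σ = tt F hI (h σ) := fun σ =>
    (Function.invFun_eq (f := tt F hI) (b := f σ) (by
      obtain ⟨a, ha⟩ := ker_tt hI hω (h0 σ)
      exact ⟨a, ha.symm⟩)).symm
  have hlc : IsLocallyConstant h := hf.1.comp (Function.invFun (tt F hI))
  have hfix : ∀ σ : Gal F, σ (e i) = e i → ∀ a, act (Em F) σ.toAlgHom (tt F hI a) = tt F hI a :=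
    fun σ hσ a => act_tt hI hI σ.toAlgHom hσ a
  have hneg : ∀ σ : Gal F, σ (e i) = -(e i) → ∀ a,
      act (Em F) σ.toAlgHom (tt F hI a) = tt F hI (-a) :=
    fun σ hσ a => act_tt_neg hI hI hω σ.toAlgHom hσ a
  have hmul : ∀ σ : Gal F, σ (e i) = e i → ∀ τ, h (σ * τ) = h σ + h τ := by
    intro σ hσ τ
    apply tt_inj hI hω
    rw [tt_add hI hω, ← hft, ← hft, hf.2, hft τ, hfix σ hσ]
  obtain ⟨s, z, hs, hz, hσ⟩ := kum e hω h hlc (fun σ τ h1 _ => hmul σ (h1 i) τ)
  have hσs : ∀ σ : Gal F, σ (e i) = e i →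
      σ s = (algebraMap F (AlgebraicClosure F) ω) ^ (h σ).val * s := fun σ h1 =>
    hσ σ (D.fix e h1)
  set w := algebraMap F (AlgebraicClosure F) ω with hw
  have hww : w ^ 2 + w + 1 = 0 := map_om hω _
  have hw3 : w ^ 3 = 1 := by linear_combination (w - 1) * hww
  have hgw : ∀ g : Gal F, g w = w := fun g => g.commutes ω
  obtain ⟨c, hc⟩ := D.exc e
  have hci := D.inv e hc
  have hct : ∀ σ : Gal F, σ (e i) = e i → (c⁻¹ * (σ * c)) (e i) = e i := by
    intro σ h1
    rw [AlgEquiv.mul_apply, AlgEquiv.mul_apply, hc, map_neg, h1, map_neg, hci, neg_neg]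
  have hcv : ∀ σ : Gal F, σ (e i) = e i → h (c⁻¹ * (σ * c)) = -h σ := by
    intro σ h1
    have e1 := hf.2 c (c⁻¹ * (σ * c))
    rw [mul_inv_cancel_left, hf.2 σ c, hft c, hfix σ h1, hft (c⁻¹ * (σ * c)), hneg c hc,
      add_comm] at e1
    have e2 := add_left_cancel e1
    rw [hft] at e2
    have e3 := tt_inj hI hω e2
    rw [e3, neg_neg]
  refine ⟨h, s, z, hs, hz, hft, hσs, ?_, ?_⟩
  · obtain ⟨a, ha⟩ := fixL e (s * c s) (by
      intro σ h1
      have h2 := h1 i
      have e1 : σ (c s) = c ((c⁻¹ * (σ * c)) s) := by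
        rw [← AlgEquiv.mul_apply, ← AlgEquiv.mul_apply, mul_inv_cancel_left]
      rw [map_mul, e1, hσs _ (hct σ h2), map_mul, map_pow, hgw, hcv σ h2, hσs σ h2]
      have e2 : w ^ (h σ).val * w ^ (-h σ).val = 1 := by
        rw [← val_mul_pow hw3, add_neg_cancel, ZMod.val_zero, pow_zero]
      linear_combination (s * c s) * e2)
    refine ⟨a, e.injective ?_⟩
    show e (z * σL z) = e (a ^ 3)
    rw [map_mul, map_pow, ha, mul_pow, hz, ← map_pow, hz, D.conj e hc]
  · rintro ⟨a, rfl⟩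
    have hfs : ∀ σ : Gal F, σ (e i) = e i → σ s = s := by
      intro σ h1
      have e1 : s ^ 3 = (e a) ^ 3 := by rw [hz, map_pow]
      have e2 : (s - e a) * ((s - w * e a) * (s - w ^ 2 * e a)) = 0 := by
        linear_combination e1 - (e a) ^ 3 * hw3 + (s * (e a) ^ 2 * w - s ^ 2 * e a) * hww
      have e3 := D.fix e h1 a
      rcases mul_eq_zero.1 e2 with e4 | e4
      · rw [sub_eq_zero.1 e4, e3]
      rcases mul_eq_zero.1 e4 with e5 | e5
      · rw [sub_eq_zero.1 e5, map_mul, hgw, e3]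
      · rw [sub_eq_zero.1 e5, map_mul, map_pow, hgw, e3]
    have hh0 : ∀ σ : Gal F, σ (e i) = e i → h σ = 0 := by
      intro σ h1
      have e1 := hσs σ h1
      rw [hfs σ h1] at e1
      have e2 : w ^ (h σ).val = 1 := by
        have e3 : (w ^ (h σ).val - 1) * s = 0 := by linear_combination -e1
        exact sub_eq_zero.1 ((mul_eq_zero.1 e3).resolve_right hs)
      have hw1 : w ≠ 1 := by
        intro e4
        rw [e4] at hww
        norm_num at hww
      have h3 : ∀ x : ZMod 3, x = 0 ∨ x.val = 1 ∨ x.val = 2 := by decide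
      rcases h3 (h σ) with h4 | h4 | h4
      · exact h4
      · rw [h4, pow_one] at e2
        exact absurd e2 hw1
      · rw [h4] at e2
        exfalso
        apply hw1
        linear_combination hw3 - w * e2
    have hf0 : ∀ σ : Gal F, σ (e i) = e i → f σ = 0 := fun σ h1 => by
      rw [hft, hh0 σ h1, tt_zero]
    refine ⟨f c, fun σ => ?_⟩
    rcases D.cas e σ with h1 | h1
    · rw [hf0 σ h1, hft c, hfix σ h1, sub_self]
    · have e1 := hf.2 c (c⁻¹ * σ)
      rw [mul_inv_cancel_left, hf0 (c⁻¹ * σ) (by rw [AlgEquiv.mul_apply, h1, map_neg, hci, neg_neg]),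
        map_zero, add_zero] at e1
      have e2 : h c = -h c - h c := by
        generalize h c = x
        revert x
        decide
      have e3 : tt F hI (-h c) - tt F hI (h c) = tt F hI (h c) := by
        rw [sub_eq_add_neg, ← tt_neg hI hω, ← tt_add hI hω, ← sub_eq_add_neg, ← e2]
      rw [e1, hft c, hneg σ h1, e3]

end glob

end Pool.Agent.W2helper2.TQ
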