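import Mathlib
import Pool.Agent.W2helper2.TQ.Core

/-!
# The local data of a locally trivial cocycle with values in the kernel of `1 - ω`
-/

set_option autoImplicit false
set_option linter.unusedSectionVars false

namespace Pool.Agent.W2helper2.TQ

open WeierstrassCurve NumberField IsDedekindDomain
open scoped Classical
open Pool.Agent.TH841.SH.D (Pt act Gal Coch IsCoc IsCob LocTriv cob)
open Pool.Agent.W2helper24.TQ (Em)
open Pool.Agent.Y715.T.Kum (val_mul_pow)

section gfun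
variable {k : Type} [Field k] {M : Type} [Field M] [Algebra k M] [CharZero M]

/-- the Kummer function -/
noncomputable def gk (ω : k) (I : M) (P : Pt (Em k) M) : M :=
  gg (V := (Em k).baseChange M) (algebraMap k M ω) I P

lemma gk_act {N : Type} [Field N] [Algebra k N] [CharZero N] (φ : M →ₐ[k] N) (ω : k) (I : M)
    (P : Pt (Em k) M) : φ (gk ω I P) = gk ω (φ I) (act (Em k) φ P) := by
  rcases P with _ | ⟨x, y, h⟩
  · exact map_zero φ
  · show φ ((y + I * (1 + 2 * algebraMap k M ω)) / ((1 + 2 * algebraMap k M ω) * x)) =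
      (φ y + φ I * (1 + 2 * algebraMap k N ω)) / ((1 + 2 * algebraMap k N ω) * φ x)
    simp only [map_div₀, map_add, map_mul, map_one, map_ofNat, φ.commutes]

variable {I : M} (hI : I ^ 2 = -1) {ω : k} (hω : ω ^ 2 + ω + 1 = 0)

lemma x_ne {x y : M} {h : ((Em k).baseChange M).toAffine.Nonsingular x y}
    (hp : ps hω M (Affine.Point.some x y h : Pt (Em k) M) ≠ 0) : x ≠ 0 := by
  rintro rfl
  apply hp
  rw [ps_apply, sub_eq_zero]
  exact pt_ext.2 ⟨(mul_zero _).symm, rfl⟩

lemma gk_add {P : Pt (Em k) M} (hp : ps hω M P ≠ 0) :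
    gk ω I (P + Tp k hI) = (algebraMap k M ω) ^ 2 * gk ω I P := by
  rcases P with _ | ⟨x, y, h⟩
  · exact absurd (map_zero _) hp
  · exact gg_add_T0 (isEb k M) (map_om hω M) hI h (x_ne hω hp)

lemma gk_tt {P : Pt (Em k) M} (hp : ps hω M P ≠ 0) (a : ZMod 3) :
    gk ω I (P + tt k hI a) = ((algebraMap k M ω) ^ 2) ^ a.val * gk ω I P := by
  unfold tt
  generalize a.val = n
  induction n with
  | zero => rw [zero_nsmul, add_zero, pow_zero, one_mul]
  | succ n ih =>
    rw [succ_nsmul, ← add_assoc, gk_add hI hω, ih, pow_succ]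
    · ring
    · rw [map_add, map_nsmul]
      have h := ps_tt (M := M) hI hω 1
      rw [tt_one] at h
      rw [h, smul_zero, add_zero]
      exact hp

include hI in
/-- the image under `1 - ω` -/
lemma ps_coord {P : Pt (Em k) M} (hp : ps hω M P ≠ 0) :
    ∃ (X : M) (h : ((Em k).baseChange M).toAffine.Nonsingular X (I + gk ω I P ^ 3)),
      ps hω M P = (Affine.Point.some X (I + gk ω I P ^ 3) h : Pt (Em k) M) := by
  rcases P with _ | ⟨x, y, h⟩
  · exact absurd (map_zero _) hp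
  · exact one_sub_im (isEb k M) (map_om hω M) hI h (x_ne hω hp)

/-- the point of order two -/
noncomputable def Sp (k : Type) [Field k] (M : Type) [Field M] [Algebra k M] [CharZero M] :
    Pt (Em k) M := Affine.Point.some 1 0 ((isEb k M).nons (by ring))

lemma ps_Sp : ps hω M (Sp k M) ≠ 0 := by
  intro h
  rw [ps_apply, sub_eq_zero] at h
  have h1 : (1 : M) = algebraMap k M ω * 1 := (pt_ext.1 h).1
  have h2 := map_om hω M
  rw [mul_one] at h1
  rw [← h1] at h2
  norm_num at h2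

omit hI in
lemma act_Sp {N : Type} [Field N] [Algebra k N] [CharZero N] (φ : M →ₐ[k] N) :
    act (Em k) φ (Sp k M) = Sp k N := pt_ext.2 ⟨map_one φ, map_zero φ⟩

include hI in
/-- the function vanishes only over the point `(0, i)` -/
lemma gk_ne {P : Pt (Em k) M} (hp : ps hω M P ≠ 0) (hT : ps hω M P ≠ Tp k hI) :
    gk ω I P ≠ 0 := by
  obtain ⟨X, hn, hX⟩ := ps_coord hI hω hp
  intro h0
  apply hT
  rw [hX]
  have h1 := ((isEb k M).eqn _ _).1 hn.1
  rw [h0] at h1
  have h2 : X ^ 3 = 0 := by linear_combination hI - h1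
  have h3 : X = 0 := pow_eq_zero_iff three_ne_zero |>.1 h2
  refine pt_ext.2 ⟨h3, ?_⟩
  rw [h0]
  ring

end gfun

section loc
variable {F L : Type} [Field F] [CharZero F] [Field L] [Algebra F L] {i : L} {σL : L ≃ₐ[F] L}
  (D : Qd i σL) {Kv Lw : Type} [Field Kv] [Algebra F Kv] [Field Lw] (j : Kv →+* Lw) (r : L →+* Lw)

include D

/-- **the local data** -/
theorem Qd.loc (hjr : ∀ x : F, j (algebraMap F Kv x) = r (algebraMap F L x))
    (e : L →ₐ[F] AlgebraicClosure F) {ω : F} (hω : ω ^ 2 + ω + 1 = 0) {f : Coch (Em F)}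
    (h0 : ∀ σ, ps hω (AlgebraicClosure F) (f σ) = 0)
    {h : Gal F → ZMod 3} {s : AlgebraicClosure F} {z : L} (hz : s ^ 3 = e z)
    (hft : ∀ σ, f σ = tt F (D.eI e) (h σ))
    (hs : ∀ σ : Gal F, σ (e i) = e i →
        σ s = (algebraMap F (AlgebraicClosure F) ω) ^ (h σ).val * s)
    (hloc : LocTriv (Em F) Kv f) :
    ∃ Z : Lw, Z ^ 3 = r z ∨ ∃ X Y : Kv, Y ^ 2 = X ^ 3 - 1 ∧ j Y ≠ r i ∧
      Z ^ 3 = (j Y - r i) * r z := by
  haveI hcv : CharZero Kv := charZero_of_injective_algebraMap (algebraMap F Kv).injective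
  haveI hcw : CharZero Lw := charZero_of_injective_ringHom j.injective
  haveI hcΩ : CharZero (AlgebraicClosure Kv) :=
    charZero_of_injective_algebraMap (algebraMap Kv (AlgebraicClosure Kv)).injective
  have hI := D.eI e
  -- the embedding of the algebraic closures
  let _ : Algebra Kv (AlgebraicClosure Lw) := ((algebraMap Lw (AlgebraicClosure Lw)).comp j).toAlgebra
  let J : AlgebraicClosure Kv →ₐ[Kv] AlgebraicClosure Lw := IsAlgClosed.lift
  have hJK : ∀ x : Kv, J (algebraMap Kv _ x) = algebraMap Lw (AlgebraicClosure Lw) (j x) := fun x =>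
    J.commutes x
  obtain ⟨ι₀⟩ : Nonempty (AlgebraicClosure F →ₐ[F] AlgebraicClosure Kv) := ⟨IsAlgClosed.lift⟩
  have hF : ∀ (ι : AlgebraicClosure F →ₐ[F] AlgebraicClosure Kv) (x : F),
      J (ι (e (algebraMap F L x))) = algebraMap Lw (AlgebraicClosure Lw) (r (algebraMap F L x)) := by
    intro ι x
    rw [e.commutes, ι.commutes, IsScalarTower.algebraMap_apply F Kv (AlgebraicClosure Kv), hJK, hjr]
  obtain ⟨c, hc⟩ := D.exc e
  obtain ⟨ι, hι⟩ : ∃ ι : AlgebraicClosure F →ₐ[F] AlgebraicClosure Kv,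
      J (ι (e i)) = algebraMap Lw (AlgebraicClosure Lw) (r i) := by
    have h1 : (J (ι₀ (e i))) ^ 2 = -1 := by
      rw [← map_pow, ← map_pow, hI, map_neg, map_one, map_neg, map_one]
    have h2 : (algebraMap Lw (AlgebraicClosure Lw) (r i)) ^ 2 = -1 := by
      rw [← map_pow, ← map_pow, D.hi, map_neg, map_one, map_neg, map_one]
    have h3 : (J (ι₀ (e i)) - algebraMap Lw (AlgebraicClosure Lw) (r i)) *
        (J (ι₀ (e i)) + algebraMap Lw (AlgebraicClosure Lw) (r i)) = 0 := by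
      linear_combination h1 - h2
    rcases mul_eq_zero.1 h3 with h4 | h4
    · exact ⟨ι₀, sub_eq_zero.1 h4⟩
    · refine ⟨ι₀.comp c.toAlgHom, ?_⟩
      show J (ι₀ (c (e i))) = _
      rw [hc, map_neg, map_neg, eq_neg_of_add_eq_zero_left h4, neg_neg]
  have hJe : ∀ x : L, J (ι (e x)) = algebraMap Lw (AlgebraicClosure Lw) (r x) := by
    intro x
    obtain ⟨a, b, rfl⟩ := D.gen x
    simp only [map_add, map_mul, hF ι, hι]
  set I' := ι (e i) with hI'
  have hI2 : I' ^ 2 = -1 := by rw [hI', ← map_pow, hI, map_neg, map_one]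
  obtain ⟨P, hP, hPT⟩ : ∃ P : Pt (Em F) (AlgebraicClosure Kv),
      (∀ (τ : Gal Kv) (σ : Gal F), (∀ x, τ (ι x) = ι (σ x)) →
        act (Em F) ι (f σ) = act (Em F) (τ.toAlgHom.restrictScalars F) P - P) ∧
      ps hω (AlgebraicClosure Kv) P ≠ Tp F hI2 := by
    obtain ⟨P, hP⟩ := hloc ι
    by_cases hT : ps hω (AlgebraicClosure Kv) P = Tp F hI2
    · refine ⟨P + Sp F (AlgebraicClosure Kv), fun τ σ h => ?_, ?_⟩
      · rw [hP τ σ h, map_add, act_Sp]
        abel
      · rw [map_add, hT]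
        intro h
        exact ps_Sp hω (left_eq_add.1 h.symm)
    · exact ⟨P, hP, hT⟩
  set w := algebraMap F (AlgebraicClosure Kv) ω with hw
  have hww : w ^ 2 + w + 1 = 0 := map_om hω _
  have hw3 : w ^ 3 = 1 := by linear_combination (w - 1) * hww
  -- the local equation
  have hR : ∀ (τ : Gal Kv) (σ : Gal F), (∀ x, τ (ι x) = ι (σ x)) →
      act (Em F) (τ.toAlgHom.restrictScalars F) P = P + tt F hI2 (h σ) := by
    intro τ σ hσ
    have h1 := hP τ σ hσ
    have h2 : act (Em F) ι (f σ) = tt F hI2 (h σ) := by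
      rw [hft]
      exact act_tt hI hI2 ι rfl _
    rw [h2] at h1
    rw [h1]
    abel
  have hιs : ∀ (τ : Gal Kv) (σ : Gal F), (∀ x, τ (ι x) = ι (σ x)) → τ I' = I' →
      τ (ι s) = w ^ (h σ).val * ι s := by
    intro τ σ hσ hτ
    have h1 : σ (e i) = e i := by
      apply ι.injective
      show ι (σ (e i)) = ι (e i)
      rw [← hσ]
      exact hτ
    rw [hσ, hs σ h1, map_mul, map_pow, ι.commutes]
  -- the element of the local field
  obtain ⟨Z', hZ'fix, hZ'⟩ : ∃ Z' : AlgebraicClosure Kv, (∀ τ : Gal Kv, τ I' = I' → τ Z' = Z') ∧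
      (Z' ^ 3 = ι (e z) ∨ ∃ X Y : Kv, Y ^ 2 = X ^ 3 - 1 ∧ algebraMap Kv _ Y ≠ I' ∧
        Z' ^ 3 = (algebraMap Kv _ Y - I') * ι (e z)) := by
    by_cases hp : ps hω (AlgebraicClosure Kv) P = 0
    · refine ⟨ι s, fun τ hτ => ?_, Or.inl ?_⟩
      · obtain ⟨σ, hσ⟩ := exists_restr ι τ
        obtain ⟨a, ha⟩ := ker_tt hI2 hω hp
        have h1 := hR τ σ hσ
        rw [ha, act_tt hI2 hI2 (τ.toAlgHom.restrictScalars F) hτ] at h1
        have h2 : tt F hI2 (h σ) = 0 := left_eq_add.1 h1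
        have h3 : h σ = 0 := tt_inj hI2 hω (by rw [h2, tt_zero])
        rw [hιs τ σ hσ hτ, h3, ZMod.val_zero, pow_zero, one_mul]
      · rw [← map_pow, hz]
    · obtain ⟨X, hn, hX⟩ := ps_coord hI2 hω hp
      have hfixR : ∀ τ : Gal Kv, τ X = X ∧ τ (I' + gk ω I' P ^ 3) = I' + gk ω I' P ^ 3 := by
        intro τ
        obtain ⟨σ, hσ⟩ := exists_restr ι τ
        have h1 : act (Em F) (τ.toAlgHom.restrictScalars F) (ps hω _ P) = ps hω _ P := by
          rw [act_ps, hR τ σ hσ, map_add, ps_tt, add_zero]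
        rw [hX] at h1
        exact pt_ext.1 h1
      obtain ⟨X₀, hX₀⟩ := fixm X fun τ => (hfixR τ).1
      obtain ⟨Y₀, hY₀⟩ := fixm _ fun τ => (hfixR τ).2
      refine ⟨gk ω I' P * ι s, fun τ hτ => ?_, Or.inr ⟨X₀, Y₀, ?_, ?_, ?_⟩⟩
      · obtain ⟨σ, hσ⟩ := exists_restr ι τ
        have h1 : τ (gk ω I' P) = (w ^ 2) ^ (h σ).val * gk ω I' P := by
          have h2 := gk_act (τ.toAlgHom.restrictScalars F) ω I' P
          have h3 : (τ.toAlgHom.restrictScalars F) I' = I' := hτ
          rw [h3, hR τ σ hσ, gk_tt hI2 hω hp] at h2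
          exact h2
        rw [map_mul, h1, hιs τ σ hσ hτ]
        have h4 : (w ^ 2) ^ (h σ).val * w ^ (h σ).val = 1 := by
          rw [← mul_pow, ← pow_succ, hw3, one_pow]
        linear_combination (gk ω I' P * ι s) * h4
      · apply (algebraMap Kv (AlgebraicClosure Kv)).injective
        have h5 := ((isEb F (AlgebraicClosure Kv)).eqn _ _).1 hn.1
        rw [map_pow, map_sub, map_pow, map_one, hX₀, hY₀]
        exact h5
      · rw [hY₀]
        intro h
        exact pow_ne_zero 3 (gk_ne hI2 hω hp hPT) (left_eq_add.1 h.symm)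
      · rw [hY₀, mul_pow, ← map_pow ι s, hz]
        ring
  obtain ⟨A, B, hAB⟩ := stab2 hI2 Z' hZ'fix
  have hJZ : algebraMap Lw (AlgebraicClosure Lw) (j A + j B * r i) = J Z' := by
    rw [hAB, map_add, map_mul, map_add, map_mul, hJK, hJK, hι]
  refine ⟨j A + j B * r i, ?_⟩
  have hinj := (algebraMap Lw (AlgebraicClosure Lw)).injective
  rcases hZ' with h1 | ⟨X, Y, hXY, hYI, h1⟩
  · left
    apply hinj
    rw [map_pow, hJZ, ← map_pow, h1, hJe]
  · right
    refine ⟨X, Y, hXY, fun h => hYI (J.injective ?_), hinj ?_⟩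
    · show J (algebraMap Kv (AlgebraicClosure Kv) Y) = J I'
      rw [hι, ← h]
      exact hJK Y
    have h2 : J ((algebraMap Kv (AlgebraicClosure Kv) Y - I') * ι (e z)) =
        (algebraMap Lw (AlgebraicClosure Lw) (j Y) - algebraMap Lw (AlgebraicClosure Lw) (r i)) *
          algebraMap Lw (AlgebraicClosure Lw) (r z) := by
      rw [map_mul, map_sub, hι, hJK, hJe]
    rw [map_pow, hJZ, ← map_pow, h1, h2, map_mul, map_sub]

end loc

end Pool.Agent.W2helper2.TQ
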