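import Mathlib
import Pool.Agent.W2helper2.TQ.Loc
import Pool.Agent.W2helper2.TQ.Cmp
import Pool.Agent.W2helper95.TQ.A4
import Pool.Agent.W2helper15.TQ.A6

/-!
# The Tate-Shafarevich group has no element of order three (project TQ, piece A8)
-/

set_option autoImplicit false
set_option linter.unusedSectionVars false

namespace Pool.Agent.W2helper2.TQ

open WeierstrassCurve NumberField IsDedekindDomain WithZero
open scoped Classical
open Pool.Agent.TH841.SH.D (Pt act Gal Coch IsCoc IsCob LocTriv cob)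
open Pool.Agent.TH841.NF.D (IsShaCoc shaCoc Sha)
open Pool.Agent.Y696 (und und_lies mem_under_of_lies)
open Pool.Agent.W2helper24.TQ

/-- the map of the completions -/
lemma exists_j {F L : Type} [Field F] [NumberField F] [Field L] [NumberField L] [Algebra F L]
    (w : HeightOneSpectrum (𝓞 L)) :
    ∃ j : (und (F := F) w).adicCompletion F →+* w.adicCompletion L,
      (∀ x : F, j (algebraMap F _ x) = algebraMap L (w.adicCompletion L) (algebraMap F L x)) ∧
      (∀ y, Valued.v y ≤ 1 → Valued.v (j y) ≤ 1) ∧ (∀ y, Valued.v y < 1 → Valued.v (j y) < 1) := by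
  haveI := und_lies (F := F) w
  have h := HeightOneSpectrum.valuation_liesOver (K := F) L (und (F := F) w) w
  have he : (und (F := F) w).asIdeal.ramificationIdx' w.asIdeal ≠ 0 :=
    Ideal.IsDedekindDomain.ramificationIdx'_ne_zero_of_liesOver _ (und (F := F) w).ne_bot
  refine Pool.Agent.TH115.GD.exists_compl_map _ w (algebraMap F L) (fun x hx => ?_) (fun x hx => ?_)
  · rw [← h]
    exact pow_le_one₀ zero_le hx
  · rw [← h]
    exact pow_lt_one₀ zero_le hx he

/-- the local conditions of the Kummer element -/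
theorem sel_of_loc {F L : Type} [Field F] [NumberField F] [Field L] [NumberField L] [Algebra F L]
    {i : L} (hi : i ^ 2 = -1) {z : L} (hz0 : z ≠ 0)
    (h2 : ∀ v : HeightOneSpectrum (𝓞 F), (2 : 𝓞 F) ∈ v.asIdeal →
      v.valuation F 2 = exp (-1 : ℤ))
    (h3 : ∀ w : HeightOneSpectrum (𝓞 L), (3 : 𝓞 L) ∈ w.asIdeal → w.valuation L 3 = exp (-2 : ℤ))
    (hl : ∀ (w : HeightOneSpectrum (𝓞 L)) (j : (und (F := F) w).adicCompletion F →+*
        w.adicCompletion L),
      (∀ x : F, j (algebraMap F _ x) = algebraMap L (w.adicCompletion L) (algebraMap F L x)) →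
      ∃ Z : w.adicCompletion L, Z ^ 3 = algebraMap L _ z ∨
        ∃ X Y : (und (F := F) w).adicCompletion F, Y ^ 2 = X ^ 3 - 1 ∧ j Y ≠ algebraMap L _ i ∧
          Z ^ 3 = (j Y - algebraMap L _ i) * algebraMap L _ z) : Sel z := by
  have hii : ∀ w : HeightOneSpectrum (𝓞 L), (algebraMap L (w.adicCompletion L) i) ^ 2 = -1 := by
    intro w
    rw [← map_pow, hi, map_neg, map_one]
  have hzz : ∀ w : HeightOneSpectrum (𝓞 L), algebraMap L (w.adicCompletion L) z ≠ 0 := by
    intro w
    rw [Ne, map_eq_zero]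
    exact hz0
  refine ⟨hz0, fun w => ?_, fun w hw a ha => ?_⟩
  · obtain ⟨j, hj, hle, hlt⟩ := exists_j (F := F) w
    obtain ⟨Z, hZ⟩ := hl w j hj
    rcases hZ with hZ | ⟨X, Y, hXY, hYi, hZ⟩
    · have hZ0 : Z ≠ 0 := by
        rintro rfl
        rw [zero_pow (by norm_num)] at hZ
        exact hzz w hZ.symm
      obtain ⟨m, hm⟩ := exp_of_ne (ν := Valued.v) hZ0
      refine div_of_val (m := m) ?_
      rw [← vx, ← hZ, map_pow, hm, ← exp_nsmul]
      simp
    · have hZ0 : Z ≠ 0 := by
        rintro rfl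
        rw [zero_pow (by norm_num)] at hZ
        exact mul_ne_zero (sub_ne_zero.2 hYi) (hzz w) hZ.symm
      obtain ⟨m, hm⟩ := exp_of_ne (ν := Valued.v) hZ0
      obtain ⟨l, hl⟩ : ∃ l : ℤ, Valued.v (j Y - algebraMap L (w.adicCompletion L) i) =
          exp (3 * l) := by
        have he' : (j Y) ^ 2 = (j X) ^ 3 - 1 := by
          rw [← map_pow, hXY, map_sub, map_pow, map_one]
        by_cases hw : (2 : 𝓞 L) ∈ w.asIdeal
        · have hv : (2 : 𝓞 F) ∈ (und (F := F) w).asIdeal := by
            rw [mem_under_of_lies (und_lies w), map_ofNat]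
            exact hw
          refine div_two (μ := Valued.v) (ν := Valued.v) j hle hlt ?_ (hii w) hXY
          have := vx (und (F := F) w) 2
          rw [map_ofNat] at this
          rw [this, h2 _ hv]
        · refine div_away (ν := Valued.v) (hii w) ?_ hYi he'
          have h5 := vx w 2
          rw [map_ofNat] at h5
          rw [h5]
          have h6 : ¬ w.valuation L ((2 : 𝓞 L) : L) < 1 := by
            rw [HeightOneSpectrum.valuation_lt_one_iff_mem]
            exact hw
          have h7 := w.valuation_le_one (K := L) (2 : 𝓞 L)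
          have h8 : algebraMap (𝓞 L) L 2 = 2 := map_ofNat _ 2
          rw [← h8]
          exact le_antisymm h7 (not_lt.1 h6)
      have h5 := congrArg (Valued.v (R := w.adicCompletion L)) hZ
      rw [map_pow, map_mul, hl, hm, vx, ← exp_nsmul] at h5
      refine div_of_val (m := m - l) ?_
      have h6 : exp (-(3 * l)) * (exp (3 * l) * w.valuation L z) = w.valuation L z := by
        rw [← mul_assoc, ← exp_add]
        simp
      rw [← h6, ← h5, ← exp_add]
      congr 1
      simp only [nsmul_eq_mul]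
      push_cast
      ring
  · obtain ⟨j, hj, hle, hlt⟩ := exists_j (F := F) w
    obtain ⟨Z, hZ⟩ := hl w j hj
    obtain ⟨r, hr⟩ := Pool.Agent.W2helper14.TQ.card_three w hw
    have hk : Nat.card (𝓞 L ⧸ w.asIdeal) - 1 + 1 = 3 ^ r := by
      rw [← hr]
      have : 0 < Nat.card (𝓞 L ⧸ w.asIdeal) := by rw [hr]; positivity
      omega
    have h3w : Valued.v (3 : w.adicCompletion L) = exp (-2 : ℤ) := by
      have h5 := vx w 3
      rw [map_ofNat] at h5
      rw [h5, h3 w hw]
    have h3' : exp (-3 : ℤ) ≤ Valued.v (3 : w.adicCompletion L) := by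
      rw [h3w, exp_le_exp]
      norm_num
    refine loc_of_PP ?_ a ha
    rcases hZ with hZ | ⟨X, Y, hXY, hYi, hZ⟩
    · have hZ0 : Z ≠ 0 := by
        rintro rfl
        rw [zero_pow (by norm_num)] at hZ
        exact hzz w hZ.symm
      rw [← hZ]
      exact PP.cube (ν := Valued.v) (fun t ht => fermat_compl w ht) h3' hZ0
    · have hZ0 : Z ≠ 0 := by
        rintro rfl
        rw [zero_pow (by norm_num)] at hZ
        exact mul_ne_zero (sub_ne_zero.2 hYi) (hzz w) hZ.symm
      have he' : (j Y) ^ 2 = (j X) ^ 3 - 1 := by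
        rw [← map_pow, hXY, map_sub, map_pow, map_one]
      have hP := pp_three (ν := Valued.v) hk (fun t ht => fermat_compl w ht) h3w (hii w) hYi he'
      have e : algebraMap L (w.adicCompletion L) z =
          Z ^ 3 * (j Y - algebraMap L (w.adicCompletion L) i)⁻¹ := by
        rw [hZ]
        field_simp [sub_ne_zero.2 hYi]
      rw [e]
      exact (PP.cube (ν := Valued.v) (fun t ht => fermat_compl w ht) h3' hZ0).mul hP.inv

theorem a8 (h4 : P_A4) (h6 : P_A6) : P_A8 := by
  intro K F _ _ _ _ _ _ _ n hn hR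
  obtain ⟨M, _, _, _, L, _, _, _, _, _, _, _, i, σM, σ, hcyc, hgal, T⟩ := h6 K F n hn
  obtain ⟨ζ, hζ⟩ := IsCyclotomicExtension.exists_isPrimitiveRoot ℚ K
    (Set.mem_singleton 3) (by norm_num)
  have hζ2 : ζ ^ 2 + ζ + 1 = 0 := by
    have h3 : ζ ^ 3 = 1 := hζ.pow_eq_one
    have h4 : ζ ≠ 1 := hζ.ne_one (by norm_num)
    have h5 : (ζ - 1) * (ζ ^ 2 + ζ + 1) = 0 := by linear_combination h3
    exact (mul_eq_zero.1 h5).resolve_left (sub_ne_zero.2 h4)
  have hω : (algebraMap K F ζ) ^ 2 + algebraMap K F ζ + 1 = 0 := by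
    rw [← map_pow, ← map_add, ← map_one (algebraMap K F), ← map_add, hζ2, map_zero]
  have hθ : (2 * ζ + 1) ^ 2 = -3 := by linear_combination 4 * hζ2
  obtain ⟨r1, r2, r3⟩ := a7 K F n hn hR M L i σM σ T
  have hi : (algebraMap M L i) ^ 2 = -1 := by rw [← map_pow, T.hi, map_neg, map_one]
  have D : Qd (algebraMap M L i) σ := ⟨hi, T.sL, T.gen, T.not⟩
  refine sha_red hω fun f hf h0 => ?_
  have hfinL : FiniteDimensional F L := Module.Finite.of_restrictScalars_finite ℚ F L
  let e : L →ₐ[F] AlgebraicClosure F := IsAlgClosed.lift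
  obtain ⟨h, s, z, hs0, hz, hft, hs, hcube, hcob⟩ := D.glob e hω hf.1 h0
  refine hcob ?_
  have hz0 : z ≠ 0 := by
    rintro rfl
    rw [map_zero] at hz
    exact pow_ne_zero 3 hs0 hz
  have hv3 : ∀ w : HeightOneSpectrum (𝓞 L), (3 : 𝓞 L) ∈ w.asIdeal →
      w.valuation L 3 = exp (-2 : ℤ) := fun w hw => val_three_L hR T hw
  have hsel : Sel z := by
    refine sel_of_loc (F := F) hi hz0 r1 hv3 fun w j hj => ?_
    exact D.loc j (algebraMap L (w.adicCompletion L)) hj e hω h0 hz hft hs (hf.2.1 _)
  have hθL : (algebraMap K L (2 * ζ + 1)) ^ 2 = -3 := by rw [← map_pow, hθ, map_neg, map_ofNat]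
  have hfin : FiniteDimensional M L := Module.Finite.of_restrictScalars_finite ℚ M L
  exact a5 M L n T.fr (σ : L ≃+* L) T.sq T.comm (by
      intro ξ hξ
      by_cases h1 : ξ = 1
      · rw [h1, map_one]
      · have h3 : ξ ^ 2 + ξ + 1 = 0 := by
          have : (ξ - 1) * (ξ ^ 2 + ξ + 1) = 0 := by linear_combination hξ
          exact (mul_eq_zero.1 this).resolve_left (sub_ne_zero.2 h1)
        have h4 : (2 * ξ + 1 - algebraMap K L (2 * ζ + 1)) *
            (2 * ξ + 1 + algebraMap K L (2 * ζ + 1)) = 0 := by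
          linear_combination 4 * h3 - hθL
        have hσθ : σ (algebraMap K L (2 * ζ + 1)) = algebraMap K L (2 * ζ + 1) := by
          rw [IsScalarTower.algebraMap_apply K F L, AlgEquiv.commutes]
        have h20 : (2 : L) ≠ 0 := two_ne_zero
        have h5 : (2 : L) * σ ξ = 2 * ξ := by
          have h6 : σ (2 * ξ + 1) = 2 * σ ξ + 1 := by rw [map_add, map_mul, map_ofNat, map_one]
          rcases mul_eq_zero.1 h4 with h | h
          · have h7 : 2 * ξ + 1 = algebraMap K L (2 * ζ + 1) := sub_eq_zero.1 h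
            rw [h7, hσθ] at h6
            linear_combination -h6 - h7
          · have h7 : 2 * ξ + 1 = -algebraMap K L (2 * ζ + 1) := eq_neg_of_add_eq_zero_left h
            rw [h7, map_neg, hσθ] at h6
            linear_combination -h6 - h7
        exact mul_left_cancel₀ h20 h5)
    (fun z => Sel z) (fun a h => h.ne) (fun a h => Sel.cube hv3 h) (fun a b ha hb => ha.mul hb)
    (fun g a h => h.aut (g : L ≃+* L)) (fun a h => h.aut (σ : L ≃+* L))
    (by
      intro m hm hσ
      have h5 : σM m = m⁻¹ := by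
        apply (algebraMap M L).injective
        rw [← T.res, map_inv₀]
        exact hσ
      obtain ⟨a, ha⟩ := h4 M m (r3 m hm h5)
      exact ⟨algebraMap M L a, by rw [ha, map_pow]⟩)
    z hsel hcube

/-- PIECE A8 -/
theorem piece : P_A8 := a8 Pool.Agent.W2helper95.TQ.piece Pool.Agent.W2helper15.TQ.piece

end Pool.Agent.W2helper2.TQ
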