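import Mathlib

/-!
# Valuations: numbers that are cubes up to three, and the points of `y² = x³ - 1`
-/

set_option autoImplicit false
set_option linter.unusedSectionVars false
set_option linter.unusedVariables false

namespace Pool.Agent.W2helper2.TQ

open WithZero

variable {E : Type*} [Field E] {ν : Valuation E ℤᵐ⁰}

lemma exp_of_ne {x : E} (hx : x ≠ 0) : ∃ m : ℤ, ν x = exp m :=
  ⟨_, (exp_log ((ν.ne_zero_iff).2 hx)).symm⟩

lemma ne_of_one {x : E} (h : ν x = 1) : x ≠ 0 := by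
  rintro rfl
  rw [map_zero] at h
  exact zero_ne_one h

lemma lt_le {x : E} (h : ν x < 1) : ν x ≤ exp (-1 : ℤ) := by
  by_cases hx : x = 0
  · rw [hx, map_zero]; exact zero_le
  obtain ⟨m, hm⟩ := exp_of_ne (ν := ν) hx
  rw [hm, ← exp_zero, exp_lt_exp] at h
  rw [hm, exp_le_exp]
  omega

lemma cube_le {x : E} (h : ν x < 1) : ν (x ^ 3) ≤ exp (-3 : ℤ) := by
  rw [map_pow]
  calc ν x ^ 3 ≤ exp (-1 : ℤ) ^ 3 := pow_le_pow_left₀ zero_le (lt_le h) 3
    _ = exp (-3 : ℤ) := by rw [← exp_nsmul]; rfl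

/-- the numbers that are cubes up to three -/
structure PP (ν : Valuation E ℤᵐ⁰) (k : ℕ) (z : E) : Prop where
  ne : z ≠ 0
  div : ∃ b, ν (z * b ^ 3) = 1
  loc : ∀ b, ν (z * b ^ 3) = 1 → ν ((z * b ^ 3) ^ k - 1) ≤ ν 3

variable {k : ℕ}

lemma sub_one_mul {x y : E} {c : ℤᵐ⁰} (hy : ν y = 1) (h1 : ν (x - 1) ≤ c) (h2 : ν (y - 1) ≤ c) :
    ν (x * y - 1) ≤ c := by
  have e : x * y - 1 = (x - 1) * y + (y - 1) := by ring
  rw [e]
  refine ν.map_add_le ?_ h2
  rw [map_mul, hy, mul_one]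
  exact h1

lemma sub_one_inv {x : E} {c : ℤᵐ⁰} (hx : ν x = 1) (h1 : ν (x - 1) ≤ c) :
    ν (x⁻¹ - 1) ≤ c := by
  have h0 := ne_of_one hx
  have e : x⁻¹ - 1 = -((x - 1) * x⁻¹) := by field_simp; ring
  rw [e, Valuation.map_neg, map_mul, map_inv₀, hx, inv_one, mul_one]
  exact h1

theorem PP.mul {z z' : E} (h : PP ν k z) (h' : PP ν k z') : PP ν k (z * z') := by
  obtain ⟨b, hb⟩ := h.div
  obtain ⟨b', hb'⟩ := h'.div
  refine ⟨mul_ne_zero h.ne h'.ne, ⟨b * b', ?_⟩, fun a ha => ?_⟩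
  · rw [show z * z' * (b * b') ^ 3 = (z * b ^ 3) * (z' * b' ^ 3) by ring, map_mul, hb, hb', one_mul]
  · have hb0 : b ≠ 0 := by
      rintro rfl
      exact (ne_of_one hb) (by ring)
    have e : z * z' * a ^ 3 = (z * b ^ 3) * (z' * (a / b) ^ 3) := by
      field_simp
    have h1 : ν (z' * (a / b) ^ 3) = 1 := by
      rw [e, map_mul, hb, one_mul] at ha
      exact ha
    rw [e, mul_pow]
    refine sub_one_mul (by rw [map_pow, h1, one_pow]) (h.loc b hb) (h'.loc _ h1)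

theorem PP.inv {z : E} (h : PP ν k z) : PP ν k z⁻¹ := by
  obtain ⟨b, hb⟩ := h.div
  refine ⟨inv_ne_zero h.ne, ⟨b⁻¹, ?_⟩, fun a ha => ?_⟩
  · rw [show z⁻¹ * b⁻¹ ^ 3 = (z * b ^ 3)⁻¹ by rw [mul_inv, inv_pow], map_inv₀, hb, inv_one]
  · have e : z⁻¹ * a ^ 3 = (z * a⁻¹ ^ 3)⁻¹ := by rw [mul_inv, inv_pow, inv_inv]
    have h1 : ν (z * a⁻¹ ^ 3) = 1 := by
      rw [e, map_inv₀] at ha
      rw [← inv_inv (ν (z * a⁻¹ ^ 3)), ha, inv_one]
    rw [e, inv_pow]
    exact sub_one_inv (by rw [map_pow, h1, one_pow]) (h.loc _ h1)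

/-- cubes of elements congruent to one -/
lemma cube_one (h3 : exp (-3 : ℤ) ≤ ν 3) {t : E} (h : ν (t - 1) < 1) :
    ν (t ^ 3 - 1) ≤ ν 3 := by
  have ht : ν t = 1 := by
    have e : t = 1 + (t - 1) := by ring
    rw [e, Valuation.map_one_add_of_lt ν h]
  have e : t ^ 3 - 1 = (t - 1) ^ 3 + 3 * (t * (t - 1)) := by ring
  rw [e]
  refine ν.map_add_le ((cube_le h).trans h3) ?_
  rw [map_mul, map_mul, ht, one_mul]
  exact mul_le_of_le_one_right' h.le

theorem PP.cube (hF : ∀ t : E, ν t = 1 → ν (t ^ k - 1) < 1) (h3 : exp (-3 : ℤ) ≤ ν 3) {a : E}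
    (ha : a ≠ 0) : PP ν k (a ^ 3) := by
  refine ⟨pow_ne_zero 3 ha, ⟨a⁻¹, ?_⟩, fun b hb => ?_⟩
  · rw [inv_pow, mul_inv_cancel₀ (pow_ne_zero 3 ha), map_one]
  · rw [← mul_pow] at hb ⊢
    have h1 : ν (a * b) = 1 := by
      rw [map_pow] at hb
      exact (pow_eq_one_iff_of_nonneg zero_le (by norm_num)).1 hb
    rw [← pow_mul, mul_comm 3 k, pow_mul]
    exact cube_one h3 (hF _ h1)

/-- away from two: the valuation of `Y - i` -/
theorem div_away {i X Y : E} (hi : i ^ 2 = -1) (h2 : ν 2 = 1) (hY : Y ≠ i)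
    (he : Y ^ 2 = X ^ 3 - 1) : ∃ m : ℤ, ν (Y - i) = exp (3 * m) := by
  have hνi : ν i = 1 := by
    have h := congrArg ν hi
    rw [map_pow, Valuation.map_neg, map_one] at h
    exact (pow_eq_one_iff_of_nonneg zero_le (by norm_num)).1 h
  have hfac : (Y - i) * (Y + i) = X ^ 3 := by linear_combination he - hi
  by_cases h1 : ν Y ≤ 1
  · by_cases hm : ν (Y - i) = 1
    · exact ⟨0, by rw [hm, mul_zero, exp_zero]⟩
    · have hlt : ν (Y - i) < 1 := lt_of_le_of_ne (ν.map_sub_le h1 hνi.le) hm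
      have hp : ν (Y + i) = 1 := by
        have e : Y + i = 2 * i + (Y - i) := by ring
        have h4 : ν (2 * i) = 1 := by rw [map_mul, h2, hνi, one_mul]
        rw [e, Valuation.map_add_eq_of_lt_left, h4]
        rw [h4]
        exact hlt
      have hX : X ≠ 0 := by
        rintro rfl
        have h5 := congrArg ν hfac
        rw [map_mul, hp, mul_one] at h5
        apply sub_ne_zero.2 hY
        rw [← ν.zero_iff, h5]
        simp
      obtain ⟨m, hm⟩ := exp_of_ne (ν := ν) hX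
      refine ⟨m, ?_⟩
      have h5 := congrArg ν hfac
      rw [map_mul, hp, mul_one, map_pow, hm, ← exp_nsmul] at h5
      rw [h5]
      simp
  · push Not at h1
    have hY0 : Y ≠ 0 := by
      rintro rfl
      rw [map_zero] at h1
      exact absurd h1 (not_lt.2 zero_le)
    obtain ⟨l, hl⟩ := exp_of_ne (ν := ν) hY0
    have hX1 : 1 < ν X := by
      by_contra hX
      push Not at hX
      have h5 : ν (Y ^ 2) ≤ 1 := by
        rw [he]
        refine ν.map_sub_le ?_ (by rw [map_one])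
        rw [map_pow]
        exact pow_le_one₀ zero_le hX
      rw [map_pow] at h5
      exact absurd (one_lt_pow₀ h1 (n := 2) (by norm_num)) (not_lt.2 h5)
    have hX0 : X ≠ 0 := by
      rintro rfl
      rw [map_zero] at hX1
      exact absurd hX1 (not_lt.2 zero_le)
    obtain ⟨m, hm⟩ := exp_of_ne (ν := ν) hX0
    have h6 : ν (X ^ 3 - 1) = ν (X ^ 3) := by
      apply Valuation.map_sub_eq_of_lt_left
      rw [map_one, map_pow]
      exact one_lt_pow₀ hX1 (by norm_num)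
    have h7 := congrArg ν he
    rw [h6, map_pow, map_pow, hl, hm, ← exp_nsmul, ← exp_nsmul] at h7
    have h8 := exp_injective h7
    simp only [nsmul_eq_mul] at h8
    push_cast at h8
    refine ⟨l / 3, ?_⟩
    have h9 : ν (Y - i) = ν Y := by
      apply Valuation.map_sub_eq_of_lt_left
      rw [hνi]
      exact h1
    rw [h9, hl]
    congr 1
    omega

end Pool.Agent.W2helper2.TQ
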